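import Pool.Agent.Helper44.OP1.Tor
import Pool.Graph.R_pool_sql_team_seeded_1acbe0a2.Y114.OP.Uniform

/-!
# Bounded multiplicative relations
-/

set_option autoImplicit false
set_option linter.unusedSectionVars false

namespace Pool.Agent.Helper44.OP1

open Module TensorProduct Pool.Agent.W5h2.SL Pool.Agent.Y114.RM Pool.Agent.Y914.RM
  Pool.Agent.Helper44.T4 Pool.Agent.H204R3.SP Pool.Agent.Y785.RM

section relpoly

variable (k : Type) [Field k] {r : ℕ} (M : ℕ)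

/-- the positive part of the exponents -/
noncomputable def expo (e : Fin r → ℤ) : Fin r →₀ ℕ :=
  Finsupp.equivFunOnFinite.symm fun j => ((M : ℤ) * e j).toNat

theorem expo_apply (e : Fin r → ℤ) (j : Fin r) : expo M e j = ((M : ℤ) * e j).toNat := rfl

/-- the polynomial of the relations in `E` -/
noncomputable def relPoly (E : Finset (Fin r → ℤ)) : MvPolynomial (Fin r) k :=
  (∏ e ∈ E, (MvPolynomial.monomial (expo M e) 1 - MvPolynomial.monomial (expo M (-e)) 1)) *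
    ∏ j, MvPolynomial.X j

variable {M}

theorem relPoly_ne_zero (hM : 0 < M) {E : Finset (Fin r → ℤ)} (hE : ∀ e ∈ E, e ≠ 0) :
    relPoly k M E ≠ 0 := by
  unfold relPoly
  refine mul_ne_zero (Finset.prod_ne_zero_iff.2 fun e he h0 => hE e he ?_)
    (Finset.prod_ne_zero_iff.2 fun j _ => MvPolynomial.X_ne_zero j)
  rw [sub_eq_zero] at h0
  have h1 := (MvPolynomial.monomial_left_inj one_ne_zero).1 h0
  funext j
  have h2 := DFunLike.congr_fun h1 j
  rw [expo_apply, expo_apply, Pi.neg_apply, mul_neg] at h2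
  have h3 : (M : ℤ) * e j = 0 := by omega
  rcases mul_eq_zero.1 h3 with h4 | h4
  · exfalso; omega
  · exact h4

variable {k} {L : Type} [Field L] [Algebra k L]

theorem zpow_split {z : L} (hz : z ≠ 0) (a : ℤ) : z ^ a.toNat = z ^ (-a).toNat * z ^ a := by
  rw [← zpow_natCast, ← zpow_natCast, ← zpow_add₀ hz]
  congr 1
  omega

theorem aeval_relPoly {E : Finset (Fin r → ℤ)} {z : Fin r → L}
    (h : MvPolynomial.aeval z (relPoly k M E) ≠ 0) :
    ∀ e ∈ E, (∏ j, z j ^ e j) ^ M ≠ 1 := by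
  intro e he h1
  unfold relPoly at h
  rw [map_mul, map_prod, map_prod] at h
  obtain ⟨h2, h3⟩ := mul_ne_zero_iff.1 h
  have hz : ∀ j, z j ≠ 0 := by
    intro j hj
    refine Finset.prod_ne_zero_iff.1 h3 j (Finset.mem_univ _) ?_
    rw [MvPolynomial.aeval_X, hj]
  refine Finset.prod_ne_zero_iff.1 h2 e he ?_
  rw [map_sub, MvPolynomial.aeval_monomial, MvPolynomial.aeval_monomial, map_one, one_mul, one_mul,
    sub_eq_zero, Finsupp.prod_fintype _ _ (fun j => pow_zero _),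
    Finsupp.prod_fintype _ _ (fun j => pow_zero _)]
  have h4 : ∀ j, z j ^ expo M e j = z j ^ expo M (-e) j * z j ^ ((M : ℤ) * e j) := by
    intro j
    rw [expo_apply, expo_apply, Pi.neg_apply, mul_neg]
    exact zpow_split (hz j) _
  rw [Finset.prod_congr rfl fun j _ => h4 j, Finset.prod_mul_distrib]
  have h5 : ∏ j, z j ^ ((M : ℤ) * e j) = 1 := by
    rw [← h1, ← Finset.prod_pow]
    refine Finset.prod_congr rfl fun j _ => ?_
    rw [← zpow_natCast, ← zpow_mul, mul_comm]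
  rw [h5, mul_one]

end relpoly

section bounded

open Polynomial Pool.Agent.Y114.TF Pool.Agent.Y114.OP

variable {ℓ : ℕ} [Fact ℓ.Prime] {ι : Type} [Fintype ι] [DecidableEq ι] {n : ι → ℕ}
  {Γ : Type} [Group Γ] [TopologicalSpace Γ] [IsTopologicalGroup Γ] [CompactSpace Γ]
  {ρ : Reps Γ n ℓ}

theorem cts_sum (hρ : Conts ρ) : Cts (p := ℓ) fun γ => sumRep ρ γ := by
  intro v φ
  have h1 : ∀ γ, φ (sumRep ρ γ v) = ∑ i, ∑ a, ∑ b, LinearMap.toMatrix' (ρ i γ) a b * v i b *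
      φ (Pi.single i (Pi.single a 1)) := by
    intro γ
    have h2 : sumRep ρ γ v = ∑ i, Pi.single i (ρ i γ (v i)) := by
      rw [Finset.univ_sum_single]
      rfl
    rw [h2, map_sum]
    refine Finset.sum_congr rfl fun i _ => ?_
    have h3 : ρ i γ (v i) = ∑ a, (ρ i γ (v i)) a • (Pi.single a (1 : ℚ_[ℓ]) : Fin (n i) → ℚ_[ℓ]) := by
      exact pi_eq_sum_univ' (ρ i γ (v i))
    have h4 : (Pi.single i (ρ i γ (v i)) : ∀ i, Fin (n i) → ℚ_[ℓ]) =
        LinearMap.single ℚ_[ℓ] (fun i => Fin (n i) → ℚ_[ℓ]) i (ρ i γ (v i)) := rfl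
    rw [h4, h3, map_sum, map_sum]
    refine Finset.sum_congr rfl fun a _ => ?_
    rw [map_smul, map_smul, smul_eq_mul, ← Finset.sum_mul]
    congr 1
    have h5 : ρ i γ (v i) = (LinearMap.toMatrix' (ρ i γ)).mulVec (v i) := by
      rw [← Matrix.toLin'_apply, Matrix.toLin'_toMatrix']
    rw [h5]
    rfl
  have h2 : (fun γ => φ (sumRep ρ γ v)) = fun γ => ∑ i, ∑ a, ∑ b,
      LinearMap.toMatrix' (ρ i γ) a b * v i b * φ (Pi.single i (Pi.single a 1)) := funext h1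
  rw [h2]
  refine continuous_finset_sum _ fun i _ => continuous_finset_sum _ fun a _ =>
    continuous_finset_sum _ fun b _ => ?_
  exact (((hρ i).matrix_elem a b).mul continuous_const).mul continuous_const

theorem semi_sum (hss : SemisimpleSum ρ) : Semi fun γ => sumRep ρ γ := hss

/-- For all `B` and `M` some element has `r` eigenvalues without relations of this size. -/
def BoundedAt (ρ : Reps Γ n ℓ) (r B M : ℕ) (γ : Γ) : Prop :=
  ∃ z : Fin r → AlgebraicClosure ℚ_[ℓ], (∀ j, ∃ i, aeval (z j) (ρ i γ).charpoly = 0) ∧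
    ∀ e : Fin r → ℤ, e ≠ 0 → (∀ j, |e j| ≤ B) → (∏ j, z j ^ e j) ^ M ≠ 1

theorem bounded (hρ : Conts ρ) (hss : SemisimpleSum ρ) {𝔤 : EndSpace n ℓ}
    (hG : ∀ X ∈ (show Submodule ℚ_[ℓ] (End ℚ_[ℓ] (∀ i, Fin (n i) → ℚ_[ℓ])) from 𝔤),
      KillsTate (sumRep ρ) X) [Algebra ℚ_[ℓ] ℂ]
    {t : Submodule ℂ (End ℂ (ℂ ⊗[ℚ_[ℓ]] (∀ i, Fin (n i) → ℚ_[ℓ])))}
    (htG : t ≤ bcS ℂ (show Submodule ℚ_[ℓ] (End ℚ_[ℓ] (∀ i, Fin (n i) → ℚ_[ℓ])) from 𝔤))
    (hd : ∀ a ∈ t, Dg a) (hcomm : ∀ a ∈ t, ∀ b ∈ t, a * b = b * a) {r : ℕ}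
    (hr : r ≤ finrank ℂ t) (B M : ℕ) (hM : 0 < M) : ∃ γ, BoundedAt ρ r B M γ := by
  classical
  let E : Finset (Fin r → ℤ) :=
    (Fintype.piFinset fun _ : Fin r => Finset.Icc (-(B : ℤ)) B).filter fun e => e ≠ 0
  have hE : ∀ e ∈ E, e ≠ 0 := fun e he => (Finset.mem_filter.1 he).2
  obtain ⟨γ, z, hz, hP⟩ := generic_roots (cts_sum hρ) (semi_sum hss) hG htG hd hcomm hr
    (relPoly ℚ_[ℓ] M E) (relPoly_ne_zero ℚ_[ℓ] hM hE)
  refine ⟨γ, z, fun j => sum_root ρ ?_, fun e he hB => aeval_relPoly hP e ?_⟩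
  · have h1 := hz j
    rw [Polynomial.eval_map, ← Polynomial.aeval_def] at h1
    exact h1
  · rw [Finset.mem_filter, Fintype.mem_piFinset]
    exact ⟨fun j => Finset.mem_Icc.2 (abs_le.1 (hB j)), he⟩

end bounded

end Pool.Agent.Helper44.OP1
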