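import Pool.Agent.Helper44.OP1.Mul
import Pool.Agent.Helper44.T4.Out

/-!
# Equivariant maps between spaces of forms and Tate tensors
-/

set_option autoImplicit false
set_option linter.unusedSectionVars false

namespace Pool.Agent.Helper44.OP1

open Module TensorProduct Pool.Agent.W5h2.SL Pool.Agent.Y114.RM Pool.Agent.Y914.RM
  Pool.Agent.Helper44.T4

variable {k : Type} [Field k] {V : Type} [AddCommGroup V] [Module k V]

/-- The product of linear forms, as a multilinear function of these. -/
noncomputable def roM (k V : Type) [Field k] [AddCommGroup V] [Module k V] (n : ℕ) :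
    MultilinearMap k (fun _ : Fin n => Dual k V) (Mu k V n) :=
  MultilinearMap.piLinearMap (M₁ := fun _ : Fin n => V) (MultilinearMap.mkPiAlgebra k (Fin n) k)

theorem roM_apply {n : ℕ} (ξ : Fin n → Dual k V) (v : Fin n → V) :
    roM k V n ξ v = ∏ l, ξ l (v l) := by
  change MultilinearMap.mkPiAlgebra k (Fin n) k (fun l => ξ l (v l)) = _
  rw [MultilinearMap.mkPiAlgebra_apply]

theorem sum_ro [FiniteDimensional k V] {ν : Type} [Fintype ν] [DecidableEq ν] (b : Basis ν k V)
    {n : ℕ} (Φ : Mu k V n) :
    Φ = ∑ J : Fin n → ν, (Φ fun l => b (J l)) • roM k V n fun l => b.coord (J l) := by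
  refine MultilinearMap.ext fun v => ?_
  rw [expand b Φ v, _root_.sum_apply]
  refine Finset.sum_congr rfl fun J _ => ?_
  rw [_root_.smul_apply, roM_apply, smul_eq_mul, mul_comm]

theorem dsum_add {n : ℕ} (Φ Ψ : Mu k V n) (X : End k V) :
    dsum (Φ + Ψ) X = dsum Φ X + dsum Ψ X := by
  refine MultilinearMap.ext fun v => ?_
  rw [dsum_apply, _root_.add_apply, dsum_apply, dsum_apply, ← Finset.sum_add_distrib]
  rfl

theorem dsum_smul {n : ℕ} (c : k) (Φ : Mu k V n) (X : End k V) :
    dsum (c • Φ) X = c • dsum Φ X := by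
  refine MultilinearMap.ext fun v => ?_
  rw [dsum_apply, _root_.smul_apply, dsum_apply, Finset.smul_sum]
  rfl

/-- the derivation, as a linear map on the forms -/
noncomputable def dL (X : End k V) (n : ℕ) : Mu k V n →ₗ[k] Mu k V n where
  toFun Φ := dsum Φ X
  map_add' Φ Ψ := dsum_add Φ Ψ X
  map_smul' c Φ := dsum_smul c Φ X

theorem dL_apply (X : End k V) {n : ℕ} (Φ : Mu k V n) (v : Fin n → V) :
    dL X n Φ v = ∑ l, Φ (Function.update v l (X (v l))) := dsum_apply Φ X v

theorem dL_ro (X : End k V) {n : ℕ} (ξ : Fin n → Dual k V) :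
    dL X n (roM k V n ξ) = ∑ l, roM k V n (Function.update ξ l (ξ l ∘ₗ X)) := by
  refine MultilinearMap.ext fun v => ?_
  rw [dL_apply, _root_.sum_apply]
  refine Finset.sum_congr rfl fun l _ => ?_
  rw [roM_apply, roM_apply]
  refine Finset.prod_congr rfl fun j _ => ?_
  by_cases h : j = l
  · subst h
    rw [Function.update_self, Function.update_self]
    rfl
  · rw [Function.update_of_ne h, Function.update_of_ne h]

/-- The tensor attached to a linear map between spaces of forms. -/
noncomputable def tq {n m : ℕ} (q : Mu k V n →ₗ[k] Mu k V m) : Tensor k V (n + m) :=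
  ((((MultilinearMap.compLinearMapₗ (fun _ : Fin m => LinearMap.fst k V (Dual k V))) ∘ₗ
    q).compMultilinearMap ((roM k V n).compLinearMap fun _ : Fin n =>
      LinearMap.snd k V (Dual k V))).uncurrySum).domDomCongr finSumFinEquiv

theorem tq_apply {n m : ℕ} (q : Mu k V n →ₗ[k] Mu k V m) (u : Fin (n + m) → V × Dual k V) :
    tq q u = q (roM k V n fun l => (u (Fin.castAdd m l)).2) fun l => (u (Fin.natAdd n l)).1 := by
  rfl

variable {Γ : Type} [Group Γ]

theorem tate_tq (σ : Representation k Γ V) {n m : ℕ} {q : Mu k V n →ₗ[k] Mu k V m}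
    (hq : ∀ γ Φ, q (mulRep σ n γ Φ) = mulRep σ m γ (q Φ)) : TateTensor σ (tq q) := by
  refine ⟨⊤, inferInstance, fun γ _ u => ?_⟩
  rw [tq_apply, tq_apply]
  have h1 : (roM k V n fun l => (grp (σ γ) (σ γ⁻¹) (u (Fin.castAdd m l))).2) =
      mulRep σ n γ (roM k V n fun l => (u (Fin.castAdd m l)).2) := by
    refine MultilinearMap.ext fun v => ?_
    rw [mulRep_apply, roM_apply, roM_apply]
    rfl
  rw [h1, hq, mulRep_apply]
  congr 1
  funext l
  change σ γ⁻¹ (σ γ (u (Fin.natAdd n l)).1) = _
  rw [← Module.End.mul_apply, ← map_mul, inv_mul_cancel, map_one, Module.End.one_apply]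

theorem comm_of_tq [FiniteDimensional k V] {n m : ℕ} {q : Mu k V n →ₗ[k] Mu k V m}
    {X : End k V} (h : KillsTensor X (tq q)) (Φ : Mu k V n) :
    q (dL X n Φ) = dL X m (q Φ) := by
  classical
  have key : ∀ ξ : Fin n → Dual k V, q (dL X n (roM k V n ξ)) = dL X m (q (roM k V n ξ)) := by
    intro ξ
    refine MultilinearMap.ext fun v => ?_
    let u : Fin (n + m) → V × Dual k V :=
      Fin.addCases (fun l => ((0 : V), ξ l)) (fun l => (v l, (0 : Dual k V)))
    have hu1 : ∀ l, u (Fin.castAdd m l) = ((0 : V), ξ l) := fun l => Fin.addCases_left l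
    have hu2 : ∀ l, u (Fin.natAdd n l) = (v l, (0 : Dual k V)) := fun l => Fin.addCases_right l
    have h1 := h u
    rw [Fin.sum_univ_add] at h1
    have h2 : ∀ l : Fin n, tq q (Function.update u (Fin.castAdd m l)
        (lie X (u (Fin.castAdd m l)))) =
        -(q (roM k V n (Function.update ξ l (ξ l ∘ₗ X))) v) := by
      intro l
      rw [tq_apply]
      have e1 : (fun j => (Function.update u (Fin.castAdd m l) (lie X (u (Fin.castAdd m l)))
          (Fin.castAdd m j)).2) = Function.update ξ l ((-1 : k) • (ξ l ∘ₗ X)) := by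
        funext j
        by_cases hj : j = l
        · subst hj
          rw [Function.update_self, Function.update_self, hu1]
          refine LinearMap.ext fun x => ?_
          change -(ξ j (X x)) = (-1 : k) * (ξ j (X x))
          rw [neg_one_mul]
        · rw [Function.update_of_ne hj, Function.update_of_ne (fun hc => hj
            (Fin.castAdd_injective n m hc)), hu1]
      have e2 : (fun j => (Function.update u (Fin.castAdd m l) (lie X (u (Fin.castAdd m l)))
          (Fin.natAdd n j)).1) = v := by
        funext j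
        rw [Function.update_of_ne, hu2]
        intro hc
        have h3 := congrArg Fin.val hc
        simp only [Fin.val_natAdd, Fin.val_castAdd] at h3
        have h4 := l.2
        omega
      rw [e1, e2, MultilinearMap.map_update_smul, map_smul]
      change (-1 : k) * (q (roM k V n (Function.update ξ l (ξ l ∘ₗ X))) v) = _
      rw [neg_one_mul]
    have h3 : ∀ l : Fin m, tq q (Function.update u (Fin.natAdd n l)
        (lie X (u (Fin.natAdd n l)))) = q (roM k V n ξ) (Function.update v l (X (v l))) := by
      intro l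
      rw [tq_apply]
      have e1 : (fun j => (Function.update u (Fin.natAdd n l) (lie X (u (Fin.natAdd n l)))
          (Fin.castAdd m j)).2) = ξ := by
        funext j
        rw [Function.update_of_ne, hu1]
        intro hc
        have h3 := congrArg Fin.val hc
        simp only [Fin.val_natAdd, Fin.val_castAdd] at h3
        have h4 := j.2
        omega
      have e2 : (fun j => (Function.update u (Fin.natAdd n l) (lie X (u (Fin.natAdd n l)))
          (Fin.natAdd n j)).1) = Function.update v l (X (v l)) := by
        funext j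
        by_cases hj : j = l
        · subst hj
          rw [Function.update_self, Function.update_self, hu2]
          rfl
        · rw [Function.update_of_ne hj, Function.update_of_ne (fun hc => hj
            (Fin.natAdd_injective m n hc)), hu2]
      rw [e1, e2]
    rw [Finset.sum_congr rfl fun l _ => h2 l, Finset.sum_congr rfl fun l _ => h3 l,
      Finset.sum_neg_distrib, neg_add_eq_zero] at h1
    rw [dL_ro, map_sum, _root_.sum_apply, h1, dL_apply]
  rw [sum_ro (Module.finBasis k V) Φ]
  simp only [map_sum, map_smul, key]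

/-- The Lie algebra commutes with the equivariant endomorphisms of sums of spaces of forms. -/
theorem comm_pi [FiniteDimensional k V] (σ : Representation k Γ V) {I : Type} [Fintype I]
    [DecidableEq I] {n : I → ℕ} {P : End k (∀ i, Mu k V (n i))}
    (hP : ∀ γ Φ i, P (fun i => mulRep σ (n i) γ (Φ i)) i = mulRep σ (n i) γ (P Φ i))
    {X : End k V} (hX : KillsTate σ X) (Φ : ∀ i, Mu k V (n i)) :
    P (fun i => dL X (n i) (Φ i)) = fun i => dL X (n i) (P Φ i) := by
  classical
  have key : ∀ (i : I) (Ψ : Mu k V (n i)), P (Pi.single i (dL X (n i) Ψ)) =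
      fun j => dL X (n j) (P (Pi.single i Ψ) j) := by
    intro i Ψ
    funext j
    let q : Mu k V (n i) →ₗ[k] Mu k V (n j) :=
      LinearMap.proj j ∘ₗ P ∘ₗ LinearMap.single k (fun i => Mu k V (n i)) i
    have hq : ∀ γ Φ, q (mulRep σ (n i) γ Φ) = mulRep σ (n j) γ (q Φ) := by
      intro γ Φ
      have h1 := hP γ (Pi.single i Φ) j
      have h2 : (fun i' => mulRep σ (n i') γ ((Pi.single i Φ : ∀ i, Mu k V (n i)) i')) =
          Pi.single i (mulRep σ (n i) γ Φ) := by
        funext i'
        by_cases h : i' = i
        · subst h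
          rw [Pi.single_eq_same, Pi.single_eq_same]
        · rw [Pi.single_eq_of_ne h, Pi.single_eq_of_ne h, map_zero]
      rw [h2] at h1
      exact h1
    exact comm_of_tq (hX _ _ (tate_tq σ hq)) Ψ
  have h1 : Φ = ∑ i, Pi.single i (Φ i) := (Finset.univ_sum_single Φ).symm
  have h2 : (fun i => dL X (n i) (Φ i)) = ∑ i, Pi.single i (dL X (n i) (Φ i)) :=
    (Finset.univ_sum_single fun i => dL X (n i) (Φ i)).symm
  rw [h2, map_sum, Finset.sum_congr rfl fun i _ => key i (Φ i)]
  funext j
  rw [Finset.sum_apply]
  conv_rhs => rw [h1]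
  rw [map_sum, Finset.sum_apply, map_sum]

end Pool.Agent.Helper44.OP1
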