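import Pool.Agent.Helper44.OP1.Comm

/-!
# Density: relations between matrix coefficients hold on the torus
-/

set_option autoImplicit false
set_option linter.unusedSectionVars false

namespace Pool.Agent.Helper44.OP1

open Module TensorProduct Pool.Agent.W5h2.SL Pool.Agent.Y114.RM Pool.Agent.Y914.RM
  Pool.Agent.Helper44.T4 Pool.Agent.H204R3.SP

section stab

variable {p : ℕ} [Fact p.Prime] {V : Type} [AddCommGroup V] [Module ℚ_[p] V]
  [FiniteDimensional ℚ_[p] V] [Nontrivial V] {Γ : Type} [Group Γ] [TopologicalSpace Γ]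
  [IsTopologicalGroup Γ] [CompactSpace Γ]

/-- The relations between the matrix coefficients are stable under the derivations. -/
theorem rel_stable {σ : Representation ℚ_[p] Γ V} (hc : Cts (p := p) fun γ => σ γ)
    (hs : Semi fun γ => σ γ) {I : Type} [Fintype I] [DecidableEq I] {n : I → ℕ}
    (x : ∀ i, Fin (n i) → V) {X : End ℚ_[p] V} (hX : KillsTate σ X)
    {Φ : ∀ i, Mu ℚ_[p] V (n i)} (hΦ : ∀ γ, ∑ i, Φ i (fun l => σ γ (x i l)) = 0) (γ : Γ) :
    ∑ i, dL X (n i) (Φ i) (fun l => σ γ (x i l)) = 0 := by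
  classical
  let U : Submodule ℚ_[p] (∀ i, Mu ℚ_[p] V (n i)) :=
    { carrier := {Ψ | ∀ γ, ∑ i, Ψ i (fun l => σ γ (x i l)) = 0}
      add_mem' := fun {A B} hA hB γ => by
        have h1 : ∀ i, (A + B) i (fun l => σ γ (x i l)) =
            A i (fun l => σ γ (x i l)) + B i (fun l => σ γ (x i l)) := fun _ => rfl
        rw [Finset.sum_congr rfl fun i _ => h1 i, Finset.sum_add_distrib, hA γ, hB γ, add_zero]
      zero_mem' := fun γ => Finset.sum_eq_zero fun i _ => rfl
      smul_mem' := fun c A hA γ => by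
        have h1 : ∀ i, (c • A) i (fun l => σ γ (x i l)) = c * A i (fun l => σ γ (x i l)) :=
          fun _ => rfl
        rw [Finset.sum_congr rfl fun i _ => h1 i, ← Finset.mul_sum, hA γ, mul_zero] }
  let R := rP fun i => mulRep σ (n i)
  have hsem : Semi fun γ => R γ :=
    semi_pi (fun i => cts_mul hc (n i)) (fun i => semi_mul hc hs (n i))
  have hU : Stab (fun γ => R γ) U := by
    intro g Ψ hΨ γ
    have h1 : ∀ i, (R g Ψ) i (fun l => σ γ (x i l)) = Ψ i (fun l => σ (g⁻¹ * γ) (x i l)) := by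
      intro i
      change Ψ i (fun l => σ g⁻¹ (σ γ (x i l))) = _
      congr 1
      funext l
      rw [map_mul]
      rfl
    rw [Finset.sum_congr rfl fun i _ => h1 i]
    exact hΨ _
  obtain ⟨C, hC, hcomp⟩ := hsem U hU
  let P := U.projection C hcomp
  have hPmem : ∀ Ψ, P Ψ ∈ U := fun Ψ => Submodule.projection_apply_mem hcomp Ψ
  have hPid : ∀ Ψ ∈ U, P Ψ = Ψ := fun Ψ h => Submodule.projection_apply_left hcomp ⟨Ψ, h⟩
  have hP0 : ∀ Ψ ∈ C, P Ψ = 0 := fun Ψ h => Submodule.projection_apply_right hcomp ⟨Ψ, h⟩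
  have hPR : ∀ γ Ψ, P (R γ Ψ) = R γ (P Ψ) := by
    intro γ Ψ
    have h1 : Ψ ∈ U ⊔ C := by rw [hcomp.sup_eq_top]; trivial
    obtain ⟨a, ha, b, hb, rfl⟩ := Submodule.mem_sup.1 h1
    rw [map_add (R γ), map_add P, map_add P, map_add (R γ), hPid _ (hU γ a ha),
      hP0 _ (hC γ b hb), hPid a ha, hP0 b hb, map_zero]
  have h2 := comm_pi σ (P := P) (fun γ Ψ i => congrFun (hPR γ Ψ) i) hX Φ
  have h3 : (fun i => dL X (n i) (Φ i)) ∈ U := by
    have h4 : P Φ = Φ := hPid Φ hΦ
    rw [h4] at h2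
    rw [← h2]
    exact hPmem _
  exact h3 γ

end stab

section dlin

variable {k : Type} [Field k] {V : Type} [AddCommGroup V] [Module k V]

theorem dL_add (X Y : End k V) {n : ℕ} (Φ : Mu k V n) :
    dL (X + Y) n Φ = dL X n Φ + dL Y n Φ := by
  refine MultilinearMap.ext fun v => ?_
  rw [dL_apply, _root_.add_apply, dL_apply, dL_apply, ← Finset.sum_add_distrib]
  refine Finset.sum_congr rfl fun l _ => ?_
  rw [LinearMap.add_apply, MultilinearMap.map_update_add]

theorem dL_smul (c : k) (X : End k V) {n : ℕ} (Φ : Mu k V n) :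
    dL (c • X) n Φ = c • dL X n Φ := by
  refine MultilinearMap.ext fun v => ?_
  rw [dL_apply, _root_.smul_apply, dL_apply, Finset.smul_sum]
  refine Finset.sum_congr rfl fun l _ => ?_
  rw [LinearMap.smul_apply, MultilinearMap.map_update_smul]

theorem dL_zero {n : ℕ} (Φ : Mu k V n) : dL (0 : End k V) n Φ = 0 := by
  refine MultilinearMap.ext fun v => ?_
  rw [dL_apply]
  refine Finset.sum_eq_zero fun l _ => ?_
  rw [LinearMap.zero_apply, MultilinearMap.map_update_zero]

/-- the derivation on eigenvectors -/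
theorem dL_eig {ν : Type} {e : ν → V} {β : ν → k} {t : End k V} (he : ∀ a, t (e a) = β a • e a)
    {n : ℕ} (Φ : Mu k V n) (J : Fin n → ν) :
    dL t n Φ (fun l => e (J l)) = (∑ l, β (J l)) * Φ fun l => e (J l) := by
  rw [dL_apply, Finset.sum_mul]
  refine Finset.sum_congr rfl fun l _ => ?_
  rw [he, MultilinearMap.map_update_smul, Function.update_eq_self]
  rfl

/-- the iterated derivation on eigenvectors -/
theorem dL_pow_eig {ν : Type} {e : ν → V} {β : ν → k} {t : End k V}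
    (he : ∀ a, t (e a) = β a • e a) {n : ℕ} (Φ : Mu k V n) (J : Fin n → ν) (j : ℕ) :
    ((dL t n)^[j] Φ) (fun l => e (J l)) = (∑ l, β (J l)) ^ j * Φ fun l => e (J l) := by
  induction j with
  | zero => rw [Function.iterate_zero, id, pow_zero, one_mul]
  | succ j ih => rw [Function.iterate_succ_apply', dL_eig he, ih, pow_succ']; ring

end dlin

section interp

theorem interp {C S : Type} [Field C] [DecidableEq C] [Fintype S] (c b : S → C)
    (h : ∀ j : ℕ, ∑ s, c s * b s ^ j = 0) (f : C → C) : ∑ s, c s * f (b s) = 0 := by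
  let B : Finset C := Finset.univ.image b
  let q := Lagrange.interpolate B id f
  have h1 : ∀ s, q.eval (b s) = f (b s) := fun s =>
    Lagrange.eval_interpolate_at_node f Function.injective_id.injOn
      (Finset.mem_image_of_mem b (Finset.mem_univ s))
  have h2 : ∑ s, c s * q.eval (b s) = 0 := by
    have h3 : ∀ s, c s * q.eval (b s) =
        ∑ j ∈ Finset.range (q.natDegree + 1), q.coeff j * (c s * b s ^ j) := by
      intro s
      rw [Polynomial.eval_eq_sum_range, Finset.mul_sum]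
      exact Finset.sum_congr rfl fun j _ => by ring
    rw [Finset.sum_congr rfl fun s _ => h3 s, Finset.sum_comm]
    refine Finset.sum_eq_zero fun j _ => ?_
    rw [← Finset.mul_sum, h j, mul_zero]
  rw [← h2]
  exact Finset.sum_congr rfl fun s _ => by rw [h1]

end interp

section bc

variable {k : Type} [Field k] {V : Type} [AddCommGroup V] [Module k V]
  {C : Type} [Field C] [Algebra k C] {ν : Type} [Fintype ν] [DecidableEq ν] (b : Basis ν k V)

theorem bcm_dL {n : ℕ} (X : End k V) (Φ : Mu k V n) :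
    bcm (Ω := C) b (dL X n Φ) = dL (X.baseChange C) n (bcm (Ω := C) b Φ) := by
  refine Basis.ext_multilinear (fun _ => b.baseChange C) fun J => ?_
  rw [bcm_basis, dL_apply, dL_apply, map_sum]
  refine Finset.sum_congr rfl fun l _ => ?_
  rw [← bcm_one (Ω := C) b Φ]
  congr 1
  funext j
  by_cases h : j = l
  · subst h
    rw [Function.update_self, Function.update_self, Basis.baseChange_apply,
      LinearMap.baseChange_tmul]
  · rw [Function.update_of_ne h, Function.update_of_ne h, Basis.baseChange_apply]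

variable {I : Type} [Fintype I] {n : I → ℕ}

/-- Base change of a space of families of forms. -/
def bcW (C : Type) [Field C] [Algebra k C] (U : Set (∀ i, Mu k V (n i))) :
    Submodule C (∀ i, Mu C (C ⊗[k] V) (n i)) :=
  Submodule.span C {F | ∃ Ψ ∈ U, F = fun i => bcm (Ω := C) b (Ψ i)}

theorem bcW_stable {U : Set (∀ i, Mu k V (n i))} {G : Submodule k (End k V)}
    (hU : ∀ X ∈ G, ∀ Ψ ∈ U, (fun i => dL X (n i) (Ψ i)) ∈ U) {t : End C (C ⊗[k] V)}
    (ht : t ∈ bcS C G) {F : ∀ i, Mu C (C ⊗[k] V) (n i)} (hF : F ∈ bcW b C U) :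
    (fun i => dL t (n i) (F i)) ∈ bcW b C U := by
  revert F
  refine Submodule.span_induction (p := fun t _ => ∀ {F : ∀ i, Mu C (C ⊗[k] V) (n i)},
    F ∈ bcW b C U → (fun i => dL t (n i) (F i)) ∈ bcW b C U) ?_ ?_ ?_ ?_ ht
  · rintro _ ⟨X, hX, rfl⟩ F hF
    let D : (∀ i, Mu C (C ⊗[k] V) (n i)) →ₗ[C] (∀ i, Mu C (C ⊗[k] V) (n i)) :=
      LinearMap.pi fun i => dL (X.baseChange C) (n i) ∘ₗ LinearMap.proj i
    have h1 : bcW b C U ≤ (bcW b C U).comap D := by
      refine Submodule.span_le.2 ?_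
      rintro _ ⟨Ψ, hΨ, rfl⟩
      refine Submodule.subset_span ⟨_, hU X hX Ψ hΨ, ?_⟩
      funext i
      exact (bcm_dL b X (Ψ i)).symm
    exact h1 hF
  · intro F _
    have h1 : (fun i => dL (0 : End C (C ⊗[k] V)) (n i) (F i)) = 0 := funext fun i => dL_zero _
    rw [h1]
    exact Submodule.zero_mem _
  · intro t t' _ _ h1 h2 F hF
    have h3 : (fun i => dL (t + t') (n i) (F i)) =
        (fun i => dL t (n i) (F i)) + fun i => dL t' (n i) (F i) := funext fun i => dL_add _ _ _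
    rw [h3]
    exact Submodule.add_mem _ (h1 hF) (h2 hF)
  · intro c t _ h1 F hF
    have h3 : (fun i => dL (c • t) (n i) (F i)) = c • fun i => dL t (n i) (F i) :=
      funext fun i => dL_smul _ _ _
    rw [h3]
    exact Submodule.smul_mem _ _ (h1 hF)

theorem bcW_vanish {U : Set (∀ i, Mu k V (n i))} {x : ∀ i, Fin (n i) → V}
    (hU : ∀ Ψ ∈ U, ∑ i, Ψ i (x i) = 0) {F : ∀ i, Mu C (C ⊗[k] V) (n i)} (hF : F ∈ bcW b C U) :
    ∑ i, F i (fun l => (1 : C) ⊗ₜ[k] x i l) = 0 := by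
  refine Submodule.span_induction (p := fun F _ => ∑ i, F i (fun l => (1 : C) ⊗ₜ[k] x i l) = 0)
    ?_ ?_ ?_ ?_ hF
  · rintro _ ⟨Ψ, hΨ, rfl⟩
    have h1 : ∀ i, bcm (Ω := C) b (Ψ i) (fun l => (1 : C) ⊗ₜ[k] x i l) =
        algebraMap k C (Ψ i (x i)) := fun i => bcm_one b (Ψ i) (x i)
    rw [Finset.sum_congr rfl fun i _ => h1 i, ← map_sum, hU Ψ hΨ, map_zero]
  · exact Finset.sum_eq_zero fun i _ => rfl
  · intro F F' _ _ h1 h2
    have h3 : ∀ i, (F + F') i (fun l => (1 : C) ⊗ₜ[k] x i l) =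
        F i (fun l => (1 : C) ⊗ₜ[k] x i l) + F' i (fun l => (1 : C) ⊗ₜ[k] x i l) := fun _ => rfl
    rw [Finset.sum_congr rfl fun i _ => h3 i, Finset.sum_add_distrib, h1, h2, add_zero]
  · intro c F _ h1
    have h3 : ∀ i, (c • F) i (fun l => (1 : C) ⊗ₜ[k] x i l) =
        c * F i (fun l => (1 : C) ⊗ₜ[k] x i l) := fun _ => rfl
    rw [Finset.sum_congr rfl fun i _ => h3 i, ← Finset.mul_sum, h1, mul_zero]

end bc

section torus

variable {C : Type} [Field C] {E : Type} [AddCommGroup E] [Module C E] [FiniteDimensional C E]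
  {μ : Type} [Fintype μ] [DecidableEq μ] (e : Basis μ C E)

/-- from the derivation to the torus -/
theorem torus_step {β : μ → C} {t s : End C E} (he : ∀ a, t (e a) = β a • e a) {τ : C → C}
    (hτ0 : τ 0 = 1) (hτ : ∀ a b, τ (a + b) = τ a * τ b) (hs : ∀ a, s (e a) = τ (β a) • e a)
    {I : Type} [Fintype I] {n : I → ℕ} (F : ∀ i, Mu C E (n i)) (x : ∀ i, Fin (n i) → E)
    (h : ∀ j : ℕ, ∑ i, ((dL t (n i))^[j] (F i)) (x i) = 0) :
    ∑ i, F i (fun l => s (x i l)) = 0 := by
  classical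
  have hτs : ∀ {m : ℕ} (f : Fin m → C), τ (∑ l, f l) = ∏ l, τ (f l) := by
    intro m f
    induction m with
    | zero => rw [Fin.sum_univ_zero, Fin.prod_univ_zero, hτ0]
    | succ m ih => rw [Fin.sum_univ_succ, Fin.prod_univ_succ, hτ, ih]
  let c : (Σ i : I, Fin (n i) → μ) → C := fun s =>
    (∏ l, e.coord (s.2 l) (x s.1 l)) * F s.1 fun l => e (s.2 l)
  let bb : (Σ i : I, Fin (n i) → μ) → C := fun s => ∑ l, β (s.2 l)
  have h1 : ∀ j : ℕ, ∑ s, c s * bb s ^ j = 0 := by
    intro j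
    rw [← h j, Fintype.sum_sigma]
    refine Finset.sum_congr rfl fun i _ => ?_
    rw [expand e ((dL t (n i))^[j] (F i)) (x i)]
    refine Finset.sum_congr rfl fun J _ => ?_
    rw [dL_pow_eig he]
    change (∏ l, e.coord (J l) (x i l)) * (F i fun l => e (J l)) * (∑ l, β (J l)) ^ j = _
    ring
  have h2 := interp c bb h1 τ
  rw [Fintype.sum_sigma] at h2
  rw [← h2]
  refine Finset.sum_congr rfl fun i _ => ?_
  have h3 : F i (fun l => s (x i l)) = ((F i).compLinearMap fun _ => s) (x i) := rfl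
  rw [h3, expand e _ (x i)]
  refine Finset.sum_congr rfl fun J _ => ?_
  rw [MultilinearMap.compLinearMap_apply]
  have h4 : (fun l => s (e (J l))) = fun l => τ (β (J l)) • e (J l) := funext fun l => hs _
  rw [h4, MultilinearMap.map_smul_univ, smul_eq_mul]
  change _ = (∏ l, e.coord (J l) (x i l)) * (F i fun l => e (J l)) * τ (∑ l, β (J l))
  rw [hτs]
  ring

end torus

section main

variable {p : ℕ} [Fact p.Prime] {V : Type} [AddCommGroup V] [Module ℚ_[p] V]
  [FiniteDimensional ℚ_[p] V] [Nontrivial V] {Γ : Type} [Group Γ] [TopologicalSpace Γ]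
  [IsTopologicalGroup Γ] [CompactSpace Γ]

/-- **Density.** A relation between matrix coefficients of the group holds for the exponentials of
semisimple elements of the Lie algebra of the endomorphisms which kill the Tate tensors. -/
theorem dens {σ : Representation ℚ_[p] Γ V} (hc : Cts (p := p) fun γ => σ γ)
    (hs : Semi fun γ => σ γ) {G : Submodule ℚ_[p] (End ℚ_[p] V)} (hG : ∀ X ∈ G, KillsTate σ X)
    {C : Type} [Field C] [Algebra ℚ_[p] C] {t s : End C (C ⊗[ℚ_[p]] V)} (ht : t ∈ bcS C G)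
    {μ : Type} [Fintype μ] [DecidableEq μ] (e : Basis μ C (C ⊗[ℚ_[p]] V)) {β : μ → C}
    (he : ∀ a, t (e a) = β a • e a) {τ : C → C} (hτ0 : τ 0 = 1)
    (hτ : ∀ a b, τ (a + b) = τ a * τ b) (hse : ∀ a, s (e a) = τ (β a) • e a)
    {ν : Type} [Fintype ν] [DecidableEq ν] (b : Basis ν ℚ_[p] V)
    {I : Type} [Fintype I] [DecidableEq I] {n : I → ℕ} (x : ∀ i, Fin (n i) → V)
    {Φ : ∀ i, Mu ℚ_[p] V (n i)} (hΦ : ∀ γ, ∑ i, Φ i (fun l => σ γ (x i l)) = 0) :
    ∑ i, bcm (Ω := C) b (Φ i) (fun l => s ((1 : C) ⊗ₜ[ℚ_[p]] x i l)) = 0 := by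
  let U : Set (∀ i, Mu ℚ_[p] V (n i)) := {Ψ | ∀ γ, ∑ i, Ψ i (fun l => σ γ (x i l)) = 0}
  have hU : ∀ X ∈ G, ∀ Ψ ∈ U, (fun i => dL X (n i) (Ψ i)) ∈ U := fun X hX Ψ hΨ γ =>
    rel_stable hc hs x (hG X hX) hΨ γ
  have hU1 : ∀ Ψ ∈ U, ∑ i, Ψ i (x i) = 0 := by
    intro Ψ hΨ
    have h1 := hΨ 1
    rw [map_one] at h1
    exact h1
  refine torus_step e he hτ0 hτ hse (fun i => bcm (Ω := C) b (Φ i))
    (fun i l => (1 : C) ⊗ₜ[ℚ_[p]] x i l) fun j => ?_
  have h1 : ∀ j : ℕ, (fun i => (dL t (n i))^[j] (bcm (Ω := C) b (Φ i))) ∈ bcW b C U := by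
    intro j
    induction j with
    | zero => exact Submodule.subset_span ⟨Φ, hΦ, rfl⟩
    | succ j ih =>
      have h2 := bcW_stable b hU ht ih
      simp only [Function.iterate_succ_apply']
      exact h2
  exact bcW_vanish b hU1 (h1 j)

end main

end Pool.Agent.Helper44.OP1
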