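import Pool.Agent.Helper44.OP1.Rk
import Pool.Agent.Helper44.T4.Out

/-!
# Four variables at one prime: final definitions and theorems
-/

set_option autoImplicit false
set_option linter.unusedSectionVars false

namespace Pool.Agent.Helper44.OP1

open Module Polynomial TensorProduct Pool.Agent.Y114.RM Pool.Agent.Y114.TF Pool.Agent.Y785.RM
  Pool.Agent.Y114.OP Pool.Agent.Helper44.T4

section general

variable {k : Type} [Field k] [CharZero k] [Algebra k ℂ] {V : Type} [AddCommGroup V] [Module k V]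
  [FiniteDimensional k V]

/-- the torus of a Lie algebra of rank at least `r` -/
theorem exists_torus {𝔤 : Submodule k (End k V)} (hLie : IsLie 𝔤) (hnd : NonDeg 𝔤)
    (halg : ∀ X, (∀ (m : ℕ) (φ : Tensor k V m), (∀ Y ∈ 𝔤, KillsTensor Y φ) → KillsTensor X φ) →
      X ∈ 𝔤) {r : ℕ} (hr : RankAtLeast 𝔤 r) :
    ∃ t, IsTor (bcS ℂ 𝔤) t ∧ r ≤ finrank ℂ t := by
  obtain ⟨t, ht, a, ha, hcen⟩ := exists_max_torus (bcS ℂ 𝔤)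
    ((inputs.bc k ℂ V 𝔤).2.1 hLie) ((inputs.bc k ℂ V 𝔤).2.2.1 hnd)
    (Pool.Agent.Y914.RM.jord k ℂ V 𝔤 halg)
  refine ⟨t, ht, ?_⟩
  have ha' : a ∈ bcS ℂ 𝔤 := ht.1 ha
  obtain ⟨N, c, g, hg⟩ := Submodule.mem_span_set'.1 ha'
  choose X hX hXg using fun i => (g i).2
  obtain ⟨x, hx⟩ := exists_generic (k := k) (bcS ℂ 𝔤) (fun i => (g i : End ℂ (ℂ ⊗[k] V))) c
  have h1 : ∑ i, algebraMap k ℂ (x i) • (g i : End ℂ (ℂ ⊗[k] V)) =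
      (∑ i, x i • X i).baseChange ℂ := by
    refine TensorProduct.AlgebraTensorModule.curry_injective (LinearMap.ext fun z =>
      LinearMap.ext fun v => ?_)
    change (∑ i, algebraMap k ℂ (x i) • (g i : End ℂ (ℂ ⊗[k] V))) (z ⊗ₜ[k] v) =
      (∑ i, x i • X i).baseChange ℂ (z ⊗ₜ[k] v)
    rw [LinearMap.baseChange_tmul, LinearMap.sum_apply, LinearMap.sum_apply, tmul_sum]
    refine Finset.sum_congr rfl fun i _ => ?_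
    rw [← hXg i, LinearMap.smul_apply, LinearMap.smul_apply, LinearMap.baseChange_tmul,
      tmul_smul, algebraMap_smul]
  have h2 : ∑ i, x i • X i ∈ 𝔤 := Submodule.sum_mem _ fun i _ => 𝔤.smul_mem _ (hX i)
  rw [h1, (inputs.bc k ℂ V 𝔤).2.2.2.1, hg] at hx
  refine (hr _ h2).trans (hx.trans ?_)
  refine Submodule.finrank_mono ?_
  intro y hy
  exact hcen y (mem_cen.1 hy).1 (mem_cen.1 hy).2

end general

section main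

variable {Γ : Type} [Group Γ] {ι : Type} [Fintype ι] [DecidableEq ι] {n : ι → ℕ}
  [TopologicalSpace Γ] [IsTopologicalGroup Γ] [CompactSpace Γ]

theorem tate_of_centre {ℓ : ℕ} [Fact ℓ.Prime] {ρ : Reps Γ n ℓ} (hρ : Conts ρ)
    (hss : SemisimpleSum ρ) {𝔤 : EndSpace n ℓ} (h𝔤 : Motivic ρ 𝔤) (h4 : FourKilledBy ρ 𝔤)
    (hc : CentreKillsAll ρ 𝔤) : TateTensorsOf ρ 𝔤 := by
  intro m φ
  refine ⟨fun hφ X hX => ?_, IsMotivic.tate h𝔤 m φ⟩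
  obtain ⟨s, hs, z, hz, rfl, hsk, -, hzc⟩ := (out_four hρ hss h𝔤 h4).2 X hX
  exact KillsTensor.add (hsk m φ hφ) (hc z hz hzc m φ hφ)

theorem tate_of_four {ℓ : ℕ} [Fact ℓ.Prime] {ρ : Reps Γ n ℓ} (hρ : Conts ρ)
    (hss : SemisimpleSum ρ) {𝔤 : EndSpace n ℓ} (h𝔤 : Motivic ρ 𝔤) (h4 : FourKilledBy ρ 𝔤)
    (hc : CentreKillsAll ρ 𝔤 ∨ PolarizedWithRealCentre ρ) : TateTensorsOf ρ 𝔤 := by
  rcases hc with hc | ⟨ω, hω, hc⟩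
  · exact tate_of_centre hρ hss h𝔤 h4 hc
  · exact out_five hρ hss h𝔤 h4 hω hc

theorem bounded_of_rank {ℓ : ℕ} [Fact ℓ.Prime] {ρ : Reps Γ n ℓ} (hρ : Conts ρ)
    (hss : SemisimpleSum ρ) {𝔤 : EndSpace n ℓ} (h𝔤 : Motivic ρ 𝔤) {r : ℕ} (hr : RankGE 𝔤 r)
    (hT : TateTensorsOf ρ 𝔤) (B M : ℕ) (hM : 0 < M) : ∃ γ, BoundedAt ρ r B M γ := by
  obtain ⟨j⟩ := exists_emb ℓ
  let _ : Algebra ℚ_[ℓ] ℂ := j.toAlgebra
  obtain ⟨t, ⟨ht1, ht2, ht3⟩, hrt⟩ := exists_torus (IsMotivic.bracket h𝔤) (IsMotivic.nondeg h𝔤)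
    (IsMotivic.algebraic h𝔤) hr
  exact bounded hρ hss (fun X hX m φ hφ => (hT m φ).1 hφ X hX) ht1 ht2 ht3 hrt B M hM

/-- all Tate tensors at one prime, for the restriction to a compact group -/
theorem all_primes
    (ρ : ∀ (ℓ : ℕ) [Fact ℓ.Prime], Reps Γ n ℓ) (hρ : ∀ (ℓ : ℕ) [Fact ℓ.Prime], Conts (ρ ℓ))
    (w : ι → ℤ) (𝔤 : ∀ (ℓ : ℕ) [Fact ℓ.Prime], EndSpace n ℓ)
    (h𝔤 : ∀ (ℓ : ℕ) [Fact ℓ.Prime], Motivic (ρ ℓ) (𝔤 ℓ)) (r : ℕ)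
    (hrank : ∀ (ℓ : ℕ) [Fact ℓ.Prime], RankLE (𝔤 ℓ) r) (c : ℕ) (ℓ₀ : ℕ) [Fact ℓ₀.Prime]
    (hr₀ : RankGE (𝔤 ℓ₀) r) {Δ : Type} [Group Δ] [TopologicalSpace Δ] [IsTopologicalGroup Δ]
    [CompactSpace Δ] (s₀ : Δ →* Γ) (hs₀ : Continuous s₀)
    (hss : SemisimpleSum (restrictTo (ρ ℓ₀) s₀))
    (hT : TateTensorsOf (restrictTo (ρ ℓ₀) s₀) (𝔤 ℓ₀)) :
    ∃ O : Set Γ, IsOpen O ∧ (∃ δ, s₀ δ ∈ O) ∧ ∀ s : Gal(AlgebraicClosure ℚ/ℚ) →* Γ,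
      GoodPoint ρ w c s → (∃ g, s g ∈ O) → ∀ (ℓ : ℕ) [Fact ℓ.Prime],
        TateUpToEnd (ρ ℓ) (𝔤 ℓ) r ∧ TateUpToEnd (restrictTo (ρ ℓ) s) (𝔤 ℓ) r := by
  obtain ⟨O, hO, ⟨_, hO1, δ, rfl⟩, hO2⟩ := one_prime ρ hρ w 𝔤 h𝔤 r hrank c ℓ₀ (Set.range s₀)
    (fun B M hM => by
      obtain ⟨δ, hδ⟩ := bounded_of_rank (ρ := restrictTo (ρ ℓ₀) s₀)
        (fun i => (hρ ℓ₀ i).comp hs₀) hss (motivic_comp s₀ (h𝔤 ℓ₀)) hr₀ hT B M hM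
      exact ⟨s₀ δ, ⟨δ, rfl⟩, hδ⟩)
  exact ⟨O, hO, ⟨δ, hO1⟩, hO2⟩

end main

end Pool.Agent.Helper44.OP1
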