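import Pool.Graph.R_pool_sql_team_seeded_9f66d723.W5h2.SL.Core

/-!
# Multilinear forms on a semisimple representation of a compact group
-/

set_option autoImplicit false
set_option linter.unusedSectionVars false

namespace Pool.Agent.Helper44.OP1

open Module TensorProduct Pool.Agent.W5h2.SL

section gen

variable {k : Type} [Field k] {V : Type} [AddCommGroup V] [Module k V]

/-- The forms in `n` variables -/
abbrev Mu (k V : Type) [Field k] [AddCommGroup V] [Module k V] (n : ℕ) : Type :=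
  MultilinearMap k (fun _ : Fin n => V) k

variable {Γ : Type} [Group Γ]

/-- The action on the forms -/
noncomputable def mulRep (σ : Γ →* End k V) (n : ℕ) : Γ →* End k (Mu k V n) where
  toFun γ := MultilinearMap.compLinearMapₗ (fun _ => σ γ⁻¹)
  map_one' := by
    refine LinearMap.ext fun Φ => MultilinearMap.ext fun v => ?_
    rw [MultilinearMap.compLinearMapₗ_apply, MultilinearMap.compLinearMap_apply]
    congr 1
    funext l
    rw [inv_one, map_one]
    rfl
  map_mul' a b := by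
    refine LinearMap.ext fun Φ => MultilinearMap.ext fun v => ?_
    rw [Module.End.mul_apply, MultilinearMap.compLinearMapₗ_apply,
      MultilinearMap.compLinearMapₗ_apply, MultilinearMap.compLinearMapₗ_apply,
      MultilinearMap.compLinearMap_apply, MultilinearMap.compLinearMap_apply,
      MultilinearMap.compLinearMap_apply]
    congr 1
    funext l
    rw [mul_inv_rev, map_mul]
    rfl

theorem mulRep_apply (σ : Γ →* End k V) {n : ℕ} (γ : Γ) (Φ : Mu k V n) (v : Fin n → V) :
    mulRep σ n γ Φ v = Φ fun l => σ γ⁻¹ (v l) := rfl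

/-- The action on the dual space -/
noncomputable def dualRep (σ : Γ →* End k V) : Γ →* End k (Dual k V) where
  toFun γ := (σ γ⁻¹).dualMap
  map_one' := by
    refine LinearMap.ext fun ξ => LinearMap.ext fun v => ?_
    rw [inv_one, map_one]
    rfl
  map_mul' a b := by
    refine LinearMap.ext fun ξ => LinearMap.ext fun v => ?_
    rw [mul_inv_rev, map_mul]
    rfl

theorem dualRep_apply (σ : Γ →* End k V) (γ : Γ) (ξ : Dual k V) (v : V) :
    dualRep σ γ ξ v = ξ (σ γ⁻¹ v) := rfl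

theorem semi_dual [FiniteDimensional k V] {σ : Γ →* End k V} (h : Semi fun γ => σ γ) :
    Semi fun γ => dualRep σ γ := by
  intro U hU
  obtain ⟨C, hC, hc⟩ := h U.dualCoannihilator (by
    intro γ v hv
    rw [Submodule.mem_dualCoannihilator] at hv ⊢
    intro ξ hξ
    have h1 := hv _ (hU γ⁻¹ ξ hξ)
    have h2 : dualRep σ γ⁻¹ ξ v = ξ (σ γ v) := by rw [dualRep_apply, inv_inv]
    rw [← h2]
    exact h1)
  refine ⟨C.dualAnnihilator, ?_, ?_⟩
  · intro γ ξ hξ
    rw [Submodule.mem_dualAnnihilator] at hξ ⊢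
    intro v hv
    exact hξ _ (hC γ⁻¹ v hv)
  · have h1 := Subspace.isCompl_dualAnnihilator hc
    rwa [Subspace.dualCoannihilator_dualAnnihilator_eq] at h1

/-- The forms in `n + 1` variables -/
noncomputable def curEq [FiniteDimensional k V] (n : ℕ) :
    Dual k V ⊗[k] Mu k V n ≃ₗ[k] Mu k V (n + 1) :=
  (dualTensorHomEquivOfBasis (Module.finBasis k V)).trans
    (multilinearCurryLeftEquiv k (fun _ : Fin (n + 1) => V) k).symm

theorem curEq_tmul [FiniteDimensional k V] {n : ℕ} (ξ : Dual k V) (Φ : Mu k V n)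
    (v : Fin (n + 1) → V) : curEq n (ξ ⊗ₜ Φ) v = ξ (v 0) * Φ (Fin.tail v) := by
  have h0 : curEq n (ξ ⊗ₜ Φ) v = (dualTensorHomEquivOfBasis (N := Mu k V n)
      (Module.finBasis k V) (ξ ⊗ₜ Φ)) (v 0) (Fin.tail v) := rfl
  rw [h0, dualTensorHomEquivOfBasis_apply, dualTensorHom_apply]
  rfl

theorem curEq_equi [FiniteDimensional k V] (σ : Γ →* End k V) (n : ℕ) (γ : Γ) (ξ : Dual k V)
    (Φ : Mu k V n) : curEq n (dualRep σ γ ξ ⊗ₜ mulRep σ n γ Φ) =
      mulRep σ (n + 1) γ (curEq n (ξ ⊗ₜ Φ)) := by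
  refine MultilinearMap.ext fun v => ?_
  have h1 := curEq_tmul (dualRep σ γ ξ) (mulRep σ n γ Φ) v
  have h2 := curEq_tmul ξ Φ fun l => σ γ⁻¹ (v l)
  rw [h1, mulRep_apply σ γ (curEq n (ξ ⊗ₜ Φ)), h2]
  rfl

/-- a form is a sum of products of linear forms -/
theorem expand [FiniteDimensional k V] {ν : Type} [Fintype ν] [DecidableEq ν] (b : Basis ν k V)
    {n : ℕ} (Φ : Mu k V n) (v : Fin n → V) :
    Φ v = ∑ J : Fin n → ν, (∏ l, b.coord (J l) (v l)) * Φ fun l => b (J l) := by
  have h1 : v = fun l => ∑ a, b.coord a (v l) • b a := by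
    funext l
    conv_lhs => rw [← b.sum_repr (v l)]
    rfl
  conv_lhs => rw [h1]
  rw [MultilinearMap.map_sum]
  refine Finset.sum_congr rfl fun J _ => ?_
  rw [MultilinearMap.map_smul_univ, smul_eq_mul]

end gen

section padic

variable {p : ℕ} [Fact p.Prime] {V : Type} [AddCommGroup V] [Module ℚ_[p] V]
  [FiniteDimensional ℚ_[p] V] {Γ : Type} [Group Γ] [TopologicalSpace Γ] [IsTopologicalGroup Γ]

theorem cts_dual {σ : Γ →* End ℚ_[p] V} (h : Cts (p := p) fun γ => σ γ) :
    Cts (p := p) fun γ => dualRep σ γ := by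
  intro ξ φ
  obtain ⟨v, rfl⟩ := (Module.evalEquiv ℚ_[p] V).surjective φ
  exact (h v ξ).comp continuous_inv

theorem cts_mul {σ : Γ →* End ℚ_[p] V} (h : Cts (p := p) fun γ => σ γ) (n : ℕ) :
    Cts (p := p) fun γ => mulRep σ n γ := by
  classical
  intro Φ φ
  let b := Module.finBasis ℚ_[p] V
  let R : (Fin n → Fin (finrank ℚ_[p] V)) → Mu ℚ_[p] V n := fun J =>
    (MultilinearMap.mkPiAlgebra ℚ_[p] (Fin n) ℚ_[p]).compLinearMap fun l => b.coord (J l)
  have hR : ∀ J v, R J v = ∏ l, b.coord (J l) (v l) := fun J v => by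
    rw [MultilinearMap.compLinearMap_apply, MultilinearMap.mkPiAlgebra_apply]
  have h1 : ∀ Ψ : Mu ℚ_[p] V n, Ψ = ∑ J, (Ψ fun l => b (J l)) • R J := by
    intro Ψ
    refine MultilinearMap.ext fun v => ?_
    rw [expand b Ψ v, _root_.sum_apply]
    refine Finset.sum_congr rfl fun J _ => ?_
    rw [_root_.smul_apply, hR, smul_eq_mul, mul_comm]
  have h2 : ∀ γ, φ (mulRep σ n γ Φ) =
      ∑ J, (Φ fun l => σ γ⁻¹ (b (J l))) * φ (R J) := by
    intro γ
    conv_lhs => rw [h1 (mulRep σ n γ Φ)]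
    rw [map_sum]
    refine Finset.sum_congr rfl fun J _ => ?_
    rw [map_smul, smul_eq_mul, mulRep_apply]
  simp only [h2]
  refine continuous_finsetSum _ fun J _ => Continuous.mul ?_ continuous_const
  have h3 : ∀ γ, (Φ fun l => σ γ⁻¹ (b (J l))) = ∑ J' : Fin n → Fin (finrank ℚ_[p] V),
      (∏ l, b.coord (J' l) (σ γ⁻¹ (b (J l)))) * Φ fun l => b (J' l) := fun γ => expand b Φ _
  simp only [h3]
  refine continuous_finsetSum _ fun J' _ => Continuous.mul ?_ continuous_const
  refine continuous_finsetProd _ fun l _ => ?_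
  exact (h (b (J l)) (b.coord (J' l))).comp continuous_inv

variable [CompactSpace Γ]

/-- The forms on a semisimple representation are semisimple. -/
theorem semi_mul [Nontrivial V] {σ : Γ →* End ℚ_[p] V} (hc : Cts (p := p) fun γ => σ γ)
    (h : Semi fun γ => σ γ) (n : ℕ) : Semi fun γ => mulRep σ n γ := by
  induction n with
  | zero =>
    intro U hU
    obtain ⟨C, hC⟩ := Submodule.exists_isCompl U
    refine ⟨C, fun γ Φ hΦ => ?_, hC⟩
    have h1 : mulRep σ 0 γ Φ = Φ := by
      refine MultilinearMap.ext fun v => ?_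
      rw [mulRep_apply]
      congr 1
      exact Subsingleton.elim _ _
    change mulRep σ 0 γ Φ ∈ C
    rw [h1]
    exact hΦ
  | succ n ih =>
    let A : GRep p Γ := ⟨Dual ℚ_[p] V, dualRep σ, cts_dual hc⟩
    let B : GRep p Γ := ⟨Mu ℚ_[p] V n, mulRep σ n, cts_mul hc n⟩
    let C : GRep p Γ := ⟨Mu ℚ_[p] V (n + 1), mulRep σ (n + 1), cts_mul hc (n + 1)⟩
    have hA : A.SS ⊥ ⊤ := ⟨stable_bot A, fun _ _ _ => trivial, le_top, int_of_semi (semi_dual h)⟩
    have hB : B.SS ⊥ ⊤ := ⟨stable_bot B, fun _ _ _ => trivial, le_top, int_of_semi ih⟩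
    have hnt : Nontrivial A.V := inferInstanceAs (Nontrivial (Dual ℚ_[p] V))
    exact semi_of_int (semi_prod A B C (curEq n) (fun γ ξ Φ => curEq_equi σ n γ ξ Φ) hA hB
      hnt).2.2.2

/-- A finite product of semisimple representations is semisimple. -/
theorem semi_pi {I : Type} [Fintype I] [DecidableEq I] {X : I → Type}
    [∀ i, AddCommGroup (X i)] [∀ i, Module ℚ_[p] (X i)] [∀ i, FiniteDimensional ℚ_[p] (X i)]
    {r : ∀ i, Γ →* End ℚ_[p] (X i)} (hc : ∀ i, Cts (p := p) fun γ => r i γ)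
    (h : ∀ i, Semi fun γ => r i γ) : Semi fun γ => rP r γ := by
  classical
  rcases subsingleton_or_nontrivial (∀ i, X i) with hs | hn
  · intro U hU
    refine ⟨⊤, fun _ _ _ => trivial, ?_⟩
    have h1 : U = ⊥ := by
      rw [Submodule.eq_bot_iff]
      exact fun x _ => Subsingleton.elim _ _
    rw [h1]
    exact isCompl_bot_top
  let R : GRep p Γ := ⟨∀ i, X i, rP r, rP_cts hc⟩
  let e := Fintype.equivFin I
  let U : ℕ → Submodule ℚ_[p] (∀ i, X i) := fun m =>
    if hm : m < Fintype.card I then LinearMap.range (LinearMap.single ℚ_[p] X (e.symm ⟨m, hm⟩))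
    else ⊥
  have hsing : ∀ (i : I) (γ : Γ) (x : X i), rP r γ (Pi.single i x) = Pi.single i (r i γ x) := by
    intro i γ x
    funext j
    rw [rP_apply]
    by_cases hj : j = i
    · subst hj
      rw [Pi.single_eq_same, Pi.single_eq_same]
    · rw [Pi.single_eq_of_ne hj, Pi.single_eq_of_ne hj, map_zero]
  have hSS : ∀ i : I, R.SS ⊥ (LinearMap.range (LinearMap.single ℚ_[p] X i)) := by
    intro i
    refine ⟨stable_bot R, ?_, bot_le, ?_⟩
    · rintro γ _ ⟨x, rfl⟩
      exact ⟨r i γ x, (hsing i γ x).symm⟩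
    · intro W hW _ hWi
      obtain ⟨C, hC, hc⟩ := h i (W.comap (LinearMap.single ℚ_[p] X i)) (by
        intro γ x hx
        change Pi.single i (r i γ x) ∈ W
        rw [← hsing]
        exact hW γ _ hx)
      refine ⟨C.map (LinearMap.single ℚ_[p] X i), ?_, bot_le, ?_, ?_, ?_⟩
      · rintro γ _ ⟨x, hx, rfl⟩
        exact ⟨r i γ x, hC γ x hx, (hsing i γ x).symm⟩
      · rintro _ ⟨x, _, rfl⟩
        exact ⟨x, rfl⟩
      · rw [Submodule.eq_bot_iff]
        rintro _ ⟨h1, ⟨x, hx, rfl⟩⟩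
        have h2 : x ∈ W.comap (LinearMap.single ℚ_[p] X i) ⊓ C := ⟨h1, hx⟩
        rw [hc.inf_eq_bot, Submodule.mem_bot] at h2
        rw [h2, map_zero]
      · apply le_antisymm
        · refine sup_le hWi ?_
          rintro _ ⟨x, _, rfl⟩
          exact ⟨x, rfl⟩
        · rintro _ ⟨x, rfl⟩
          have h2 : x ∈ W.comap (LinearMap.single ℚ_[p] X i) ⊔ C := by
            rw [hc.sup_eq_top]; trivial
          obtain ⟨a, ha, b, hb, rfl⟩ := Submodule.mem_sup.1 h2
          rw [map_add]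
          exact Submodule.add_mem_sup ha ⟨b, hb, rfl⟩
  refine semi_of_int (semi_of_sup R hn U (fun m => ?_) ?_).2.2.2
  · by_cases hm : m < Fintype.card I
    · have h1 : U m = LinearMap.range (LinearMap.single ℚ_[p] X (e.symm ⟨m, hm⟩)) := dif_pos hm
      rw [h1]
      exact hSS _
    · have h1 : U m = ⊥ := dif_neg hm
      rw [h1]
      refine ⟨stable_bot R, stable_bot R, le_rfl, fun W _ h1 h2 => ?_⟩
      exact ⟨⊥, stable_bot R, le_rfl, le_rfl, by simp, by simpa using h2⟩
  · rw [eq_top_iff]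
    intro x _
    have h1 : x = ∑ i, LinearMap.single ℚ_[p] X i (x i) :=
      (Finset.univ_sum_single x).symm
    rw [h1]
    refine Submodule.sum_mem _ fun i _ => ?_
    have h2 : U (e i) = LinearMap.range (LinearMap.single ℚ_[p] X i) := by
      have h3 : U (e i) = LinearMap.range (LinearMap.single ℚ_[p] X (e.symm ⟨e i, (e i).2⟩)) :=
        dif_pos (e i).2
      have h4 : e.symm ⟨e i, (e i).2⟩ = i := e.symm_apply_apply i
      rw [h3, h4]
    have h3 : LinearMap.single ℚ_[p] X i (x i) ∈ U (e i) := by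
      rw [h2]
      exact ⟨x i, rfl⟩
    exact Submodule.mem_iSup_of_mem _ h3

end padic

end Pool.Agent.Helper44.OP1
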