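import Pool.Agent.Helper44.OP1.Dens

/-!
# The ring of matrix coefficients and its values at the torus
-/

set_option autoImplicit false
set_option linter.unusedSectionVars false

namespace Pool.Agent.Helper44.OP1

open Module TensorProduct Pool.Agent.W5h2.SL Pool.Agent.Y114.RM Pool.Agent.Y914.RM
  Pool.Agent.Helper44.T4 Pool.Agent.H204R3.SP

section mulF

variable {k : Type} [Field k] {V : Type} [AddCommGroup V] [Module k V]

/-- the product of forms -/
noncomputable def mulF {n m : ℕ} (Φ : Mu k V n) (Ψ : Mu k V m) : Mu k V (n + m) :=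
  (((LinearMap.toSpanSingleton k (Mu k V m) Ψ).compMultilinearMap Φ).uncurrySum
    (N := fun _ : Fin n ⊕ Fin m => V)).domDomCongr finSumFinEquiv

theorem mulF_apply {n m : ℕ} (Φ : Mu k V n) (Ψ : Mu k V m) (v : Fin (n + m) → V) :
    mulF Φ Ψ v = (Φ fun l => v (Fin.castAdd m l)) * Ψ fun l => v (Fin.natAdd n l) := rfl

variable {C : Type} [Field C] [Algebra k C] {ν : Type} [Fintype ν] [DecidableEq ν]
  (b : Basis ν k V)

theorem bcm_mulF {n m : ℕ} (Φ : Mu k V n) (Ψ : Mu k V m) :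
    bcm (Ω := C) b (mulF Φ Ψ) = mulF (bcm (Ω := C) b Φ) (bcm (Ω := C) b Ψ) := by
  refine Basis.ext_multilinear (fun _ => b.baseChange C) fun J => ?_
  rw [bcm_basis, mulF_apply, mulF_apply, map_mul]
  rw [bcm_basis b Φ fun l => J (Fin.castAdd m l), bcm_basis b Ψ fun l => J (Fin.natAdd n l)]

theorem bcm_smul {n : ℕ} (c : k) (Φ : Mu k V n) :
    bcm (Ω := C) b (c • Φ) = algebraMap k C c • bcm (Ω := C) b Φ := by
  refine Basis.ext_multilinear (fun _ => b.baseChange C) fun J => ?_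
  rw [bcm_basis, _root_.smul_apply, _root_.smul_apply, bcm_basis, smul_eq_mul, smul_eq_mul,
    map_mul]

/-- the linear form `b.coord i` as a form in one variable -/
noncomputable def one1 (ξ : Dual k V) : Mu k V 1 := roM k V 1 fun _ => ξ

theorem one1_apply (ξ : Dual k V) (v : Fin 1 → V) : one1 ξ v = ξ (v 0) := by
  unfold one1
  rw [roM_apply, Fin.prod_univ_one]

theorem bcm_one1 (i : ν) (w : Fin 1 → C ⊗[k] V) :
    bcm (Ω := C) b (one1 (b.coord i)) w = (b.baseChange C).coord i (w 0) := by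
  have h : bcm (Ω := C) b (one1 (b.coord i)) = one1 ((b.baseChange C).coord i) := by
    refine Basis.ext_multilinear (fun _ => b.baseChange C) fun J => ?_
    rw [bcm_basis, one1_apply, one1_apply, Basis.coord_apply, Basis.coord_apply, Basis.repr_self,
      Basis.repr_self, Finsupp.single_apply, Finsupp.single_apply]
    split_ifs
    · exact map_one _
    · exact map_zero _
  rw [h, one1_apply]

end mulF

section ring

variable {p : ℕ} [Fact p.Prime] {V : Type} [AddCommGroup V] [Module ℚ_[p] V]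
  {Γ : Type} [Group Γ] (σ : Representation ℚ_[p] Γ V)
  {C : Type} [Field C] [Algebra ℚ_[p] C] (s : End C (C ⊗[ℚ_[p]] V))
  {ν : Type} [Fintype ν] [DecidableEq ν] (b : Basis ν ℚ_[p] V)

/-- The matrix coefficients with their values at `s`. -/
def mc : Submonoid ((Γ → ℚ_[p]) × C) where
  carrier := {f | ∃ (n : ℕ) (Φ : Mu ℚ_[p] V n) (x : Fin n → V),
    f = (fun γ => Φ fun l => σ γ (x l),
      bcm (Ω := C) b Φ fun l => s ((1 : C) ⊗ₜ[ℚ_[p]] x l))}
  mul_mem' := by
    rintro _ _ ⟨n, Φ, x, rfl⟩ ⟨m, Ψ, y, rfl⟩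
    refine ⟨n + m, mulF Φ Ψ, Fin.addCases x y, ?_⟩
    have h1 : ∀ l, Fin.addCases (motive := fun _ => V) x y (Fin.castAdd m l) = x l :=
      fun l => Fin.addCases_left l
    have h2 : ∀ l, Fin.addCases (motive := fun _ => V) x y (Fin.natAdd n l) = y l :=
      fun l => Fin.addCases_right l
    refine Prod.ext ?_ ?_
    · funext γ
      change _ * _ = mulF Φ Ψ _
      rw [mulF_apply]
      simp only [h1, h2]
    · change _ * _ = bcm (Ω := C) b (mulF Φ Ψ) _
      rw [bcm_mulF, mulF_apply]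
      simp only [h1, h2]
  one_mem' := by
    refine ⟨0, roM ℚ_[p] V 0 Fin.elim0, Fin.elim0, ?_⟩
    refine Prod.ext ?_ ?_
    · funext γ
      change 1 = roM ℚ_[p] V 0 Fin.elim0 _
      rw [roM_apply, Fin.prod_univ_zero]
    · change 1 = bcm (Ω := C) b (roM ℚ_[p] V 0 Fin.elim0) _
      have h1 : (fun l : Fin 0 => s ((1 : C) ⊗ₜ[ℚ_[p]] (Fin.elim0 l : V))) =
          fun l => (1 : C) ⊗ₜ[ℚ_[p]] (Fin.elim0 l : V) := funext fun l => l.elim0
      rw [h1, bcm_one, roM_apply, Fin.prod_univ_zero, map_one]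

/-- The ring of matrix coefficients with their values at `s`. -/
noncomputable def mcR : Subalgebra ℚ_[p] ((Γ → ℚ_[p]) × C) :=
  Algebra.adjoin ℚ_[p] (mc σ s b : Set ((Γ → ℚ_[p]) × C))

/-- the matrix with these entries -/
noncomputable def mat : Matrix ν ν (mcR σ s b) := Matrix.of fun i j =>
  ⟨(fun γ => b.coord i (σ γ (b j)),
    (b.baseChange C).coord i (s ((1 : C) ⊗ₜ[ℚ_[p]] b j))), Algebra.subset_adjoin
    ⟨1, one1 (b.coord i), fun _ => b j, by
      refine Prod.ext ?_ ?_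
      · funext γ
        change _ = one1 (b.coord i) _
        rw [one1_apply]
      · change _ = bcm (Ω := C) b (one1 (b.coord i)) _
        rw [bcm_one1]⟩⟩

/-- evaluation at group elements -/
noncomputable def evG (γ : Γ) : mcR σ s b →ₐ[ℚ_[p]] ℚ_[p] :=
  ((Pi.evalAlgHom ℚ_[p] (fun _ : Γ => ℚ_[p]) γ).comp
    (AlgHom.fst ℚ_[p] (Γ → ℚ_[p]) C)).comp (mcR σ s b).val

/-- evaluation at `s` -/
noncomputable def evS : mcR σ s b →ₐ[ℚ_[p]] C :=
  (AlgHom.snd ℚ_[p] (Γ → ℚ_[p]) C).comp (mcR σ s b).val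

theorem mat_evG (γ : Γ) : (mat σ s b).map (evG σ s b γ) = LinearMap.toMatrix b b (σ γ) := by
  ext i j
  rw [LinearMap.toMatrix_apply]
  rfl

theorem mat_evS : (mat σ s b).map (evS σ s b) =
    LinearMap.toMatrix (b.baseChange C) (b.baseChange C) s := by
  ext i j
  rw [LinearMap.toMatrix_apply, Basis.baseChange_apply]
  rfl

end ring

section main

variable {p : ℕ} [Fact p.Prime] {V : Type} [AddCommGroup V] [Module ℚ_[p] V]
  [FiniteDimensional ℚ_[p] V] [Nontrivial V] {Γ : Type} [Group Γ] [TopologicalSpace Γ]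
  [IsTopologicalGroup Γ] [CompactSpace Γ]

/-- a matrix coefficient which vanishes on the group vanishes at `s` -/
theorem mcR_zero {σ : Representation ℚ_[p] Γ V} (hc : Cts (p := p) fun γ => σ γ)
    (hs : Semi fun γ => σ γ) {G : Submodule ℚ_[p] (End ℚ_[p] V)} (hG : ∀ X ∈ G, KillsTate σ X)
    {C : Type} [Field C] [Algebra ℚ_[p] C] {t s : End C (C ⊗[ℚ_[p]] V)} (ht : t ∈ bcS C G)
    {μ : Type} [Fintype μ] [DecidableEq μ] (e : Basis μ C (C ⊗[ℚ_[p]] V)) {β : μ → C}
    (he : ∀ a, t (e a) = β a • e a) {τ : C → C} (hτ0 : τ 0 = 1)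
    (hτ : ∀ a b, τ (a + b) = τ a * τ b) (hse : ∀ a, s (e a) = τ (β a) • e a)
    {ν : Type} [Fintype ν] [DecidableEq ν] (b : Basis ν ℚ_[p] V) (f : mcR σ s b)
    (hf : ∀ γ, evG σ s b γ f = 0) : evS σ s b f = 0 := by
  obtain ⟨f, hfm⟩ := f
  have h1 : f ∈ Submodule.span ℚ_[p] (mc σ s b : Set ((Γ → ℚ_[p]) × C)) := by
    have h2 : f ∈ Subalgebra.toSubmodule (mcR σ s b) := hfm
    rw [mcR, Algebra.adjoin_eq_span, Submonoid.closure_eq] at h2
    exact h2
  obtain ⟨N, c, g, hg⟩ := Submodule.mem_span_set'.1 h1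
  choose n Φ x hx using fun i => (g i).2
  have h3 : ∀ γ, ∑ i, (c i • Φ i) (fun l => σ γ (x i l)) = 0 := by
    intro γ
    have h4 : f.1 γ = 0 := hf γ
    rw [← hg, Prod.fst_sum, Finset.sum_apply] at h4
    rw [← h4]
    refine Finset.sum_congr rfl fun i _ => ?_
    rw [hx i]
    rfl
  have h5 := dens hc hs hG ht e he hτ0 hτ hse b x h3
  change f.2 = 0
  rw [← hg, Prod.snd_sum, ← h5]
  refine Finset.sum_congr rfl fun i _ => ?_
  rw [bcm_smul, _root_.smul_apply, hx i]
  change c i • _ = _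
  rw [Algebra.smul_def, smul_eq_mul]

/-- **Density for the characteristic polynomial.** -/
theorem charpoly_rel {σ : Representation ℚ_[p] Γ V} (hc : Cts (p := p) fun γ => σ γ)
    (hs : Semi fun γ => σ γ) {G : Submodule ℚ_[p] (End ℚ_[p] V)} (hG : ∀ X ∈ G, KillsTate σ X)
    {C : Type} [Field C] [Algebra ℚ_[p] C] {t s : End C (C ⊗[ℚ_[p]] V)} (ht : t ∈ bcS C G)
    {μ : Type} [Fintype μ] [DecidableEq μ] (e : Basis μ C (C ⊗[ℚ_[p]] V)) {β : μ → C}
    (he : ∀ a, t (e a) = β a • e a) {τ : C → C} (hτ0 : τ 0 = 1)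
    (hτ : ∀ a b, τ (a + b) = τ a * τ b) (hse : ∀ a, s (e a) = τ (β a) • e a)
    {κ : Type} (P : MvPolynomial κ ℚ_[p]) (d : κ → ℕ)
    (hP : ∀ γ, MvPolynomial.aeval (fun i => (σ γ).charpoly.coeff (d i)) P = 0) :
    MvPolynomial.aeval (fun i => s.charpoly.coeff (d i)) P = 0 := by
  classical
  let b := Module.finBasis ℚ_[p] V
  let f : mcR σ s b := MvPolynomial.aeval (fun i => (mat σ s b).charpoly.coeff (d i)) P
  have h1 : ∀ γ, evG σ s b γ f = 0 := by
    intro γ
    rw [← hP γ, MvPolynomial.comp_aeval_apply]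
    congr 2
    funext i
    rw [← LinearMap.charpoly_toMatrix (σ γ) b, ← mat_evG σ s b γ]
    change _ = ((mat σ s b).map (evG σ s b γ).toRingHom).charpoly.coeff (d i)
    rw [Matrix.charpoly_map, Polynomial.coeff_map]
    rfl
  have h2 := mcR_zero hc hs hG ht e he hτ0 hτ hse b f h1
  rw [← h2, MvPolynomial.comp_aeval_apply]
  congr 2
  funext i
  rw [← LinearMap.charpoly_toMatrix s (b.baseChange C), ← mat_evS σ s b]
  change ((mat σ s b).map (evS σ s b).toRingHom).charpoly.coeff (d i) = _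
  rw [Matrix.charpoly_map, Polynomial.coeff_map]
  rfl

end main

end Pool.Agent.Helper44.OP1
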