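import Pool.Agent.Helper44.OP1.Uni

/-!
# The rank and tori over the complex numbers
-/

set_option autoImplicit false
set_option linter.unusedSectionVars false

namespace Pool.Agent.Helper44.OP1

open Module Polynomial TensorProduct Pool.Agent.Y114.RM Pool.Agent.Y785.RM

section max

variable {K : Type} [Field K] [CharZero K] {V : Type} [AddCommGroup V] [Module K V]
  [FiniteDimensional K V]

/-- commuting diagonalizable endomorphisms in `G` -/
def IsTor (G t : Submodule K (End K V)) : Prop :=
  t ≤ G ∧ (∀ a ∈ t, Dg a) ∧ ∀ a ∈ t, ∀ b ∈ t, a * b = b * a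

/-- a maximal torus is the centralizer of one of its elements -/
theorem exists_max_torus (G : Submodule K (End K V)) (hG : IsLie G) (hnd : NonDeg G)
    (hss : ∀ x ∈ G, ∃ s ∈ G, IsSemisimplePart x s) :
    ∃ t, IsTor G t ∧ ∃ a ∈ t, ∀ x ∈ G, a * x = x * a → x ∈ t := by
  classical
  obtain ⟨t, ⟨htG, hd, hc⟩, hmax⟩ := WellFounded.has_min
    (wellFounded_gt (α := Submodule K (End K V))) {t | IsTor G t}
    ⟨⊥, bot_le, fun a ha => by
      rw [(Submodule.mem_bot K).1 ha]
      unfold Dg
      rw [eq_top_iff]
      refine le_iSup_of_le (0 : K) ?_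
      intro x _
      rw [End.mem_eigenspace_iff, zero_smul]
      rfl, fun a ha b hb => by
      rw [(Submodule.mem_bot K).1 ha, (Submodule.mem_bot K).1 hb]⟩
  obtain ⟨a, ha, hgen⟩ := gen t hd hc
  refine ⟨t, ⟨htG, hd, hc⟩, a, ha, ?_⟩
  -- membership in the centralizer
  have hcomm : ∀ y : End K V, a * y = y * a → ∀ b ∈ t, b * y = y * b := by
    intro y hy b hb
    obtain ⟨q, rfl⟩ := hgen b hb
    have h1 : Commute a y := hy
    exact comm_aeval h1 q
  choose! s hsG hs using hss
  -- the semisimple parts lie in `t`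
  have hst : ∀ y ∈ G, (∀ b ∈ t, b * y = y * b) → s y ∈ t := by
    intro y hy hyt
    obtain ⟨h1, h2, h3⟩ := hs y hy
    have h4 : ∀ b ∈ t, Commute b (s y) := fun b hb => (h3 b (hyt b hb).symm).symm
    have ht' : ∀ z ∈ t ⊔ Submodule.span K {s y}, ∃ b ∈ t, ∃ c : K, z = b + c • s y := by
      intro z hz
      obtain ⟨b, hb, d, hd', rfl⟩ := Submodule.mem_sup.1 hz
      obtain ⟨c, rfl⟩ := Submodule.mem_span_singleton.1 hd'
      exact ⟨b, hb, c, rfl⟩
    have h5 : IsTor G (t ⊔ Submodule.span K {s y}) := by
      refine ⟨sup_le htG ((Submodule.span_singleton_le_iff_mem _ _).2 (hsG y hy)), ?_, ?_⟩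
      · intro z hz
        obtain ⟨b, hb, c, rfl⟩ := ht' z hz
        exact dg_add (hd b hb) h1 (h4 b hb) c
      · intro z hz z' hz'
        obtain ⟨b, hb, c, rfl⟩ := ht' z hz
        obtain ⟨b', hb', c', rfl⟩ := ht' z' hz'
        have k1 : Commute b b' := hc b hb b' hb'
        have k2 : Commute b (c' • s y) := (h4 b hb).smul_right c'
        have k3 : Commute (c • s y) b' := ((h4 b' hb').smul_right c).symm
        have k4 : Commute (c • s y) (c' • s y) :=
          ((Commute.refl (s y)).smul_right c').smul_left c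
        exact (k1.add_right k2).add_left (k3.add_right k4)
    have h6 : t = t ⊔ Submodule.span K {s y} := by
      by_contra hne
      exact hmax _ h5 (lt_of_le_of_ne le_sup_left hne)
    rw [h6]
    exact Submodule.mem_sup_right (Submodule.mem_span_singleton_self _)
  -- the nilpotent parts
  have hnt : ∀ y ∈ G, (∀ b ∈ t, b * y = y * b) → ∀ b ∈ t, Commute b (y - s y) := by
    intro y hy hyt b hb
    have k1 : Commute b y := hyt b hb
    have k2 : Commute b (s y) := hc b hb (s y) (hst y hy hyt)
    exact k1.sub_right k2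
  have htr : ∀ y ∈ G, (∀ b ∈ t, b * y = y * b) → ∀ b ∈ t, ∀ p : K[X],
      LinearMap.trace K V ((y - s y) * aeval b p) = 0 := by
    intro y hy hyt b hb p
    refine tr_nil ?_ (hs y hy).2.1
    have h1 : Commute b (y - s y) := hnt y hy hyt b hb
    exact (comm_aeval h1 p).symm
  have hadd : ∀ y ∈ G, (∀ b ∈ t, b * y = y * b) → ∀ z ∈ G, (∀ b ∈ t, b * z = z * b) →
      LinearMap.trace K V ((y - s y) * (z - s z)) = 0 := by
    intro y hy hyt z hz hzt
    have hyz : y + z ∈ G := G.add_mem hy hz
    have hyzt : ∀ b ∈ t, b * (y + z) = (y + z) * b := fun b hb => by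
      rw [mul_add, add_mul, hyt b hb, hzt b hb]
    have ha' : s (y + z) - s y - s z ∈ t :=
      t.sub_mem (t.sub_mem (hst _ hyz hyzt) (hst y hy hyt)) (hst z hz hzt)
    have h1 : s (y + z) - s y - s z = (y - s y) + (z - s z) - ((y + z) - s (y + z)) := by abel
    have h2 : aeval (s (y + z) - s y - s z) (X : K[X]) = 0 := by
      refine tr_zero (hd _ ha') X fun p => ?_
      rw [aeval_X, LinearMap.trace_mul_comm]
      nth_rewrite 1 [h1]
      rw [sub_mul, add_mul, map_sub, map_add, htr y hy hyt _ ha' p, htr z hz hzt _ ha' p,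
        htr _ hyz hyzt _ ha' p, add_zero, sub_zero]
    rw [aeval_X] at h2
    have h3 : (y - s y) + (z - s z) = (y + z) - s (y + z) := by
      rw [h1, sub_eq_zero] at h2
      exact h2
    have h4 : IsNilpotent ((y - s y) + (z - s z)) := by
      rw [h3]
      exact (hs _ hyz).2.1
    have h5 := tr_nil (x := (y - s y) + (z - s z)) rfl h4
    have h6 := tr_nil (x := y - s y) rfl (hs y hy).2.1
    have h7 := tr_nil (x := z - s z) rfl (hs z hz).2.1
    rw [mul_add, add_mul, add_mul, map_add, map_add, map_add, h6, h7,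
      LinearMap.trace_mul_comm K (z - s z) (y - s y), zero_add, add_zero, ← two_mul] at h5
    exact (mul_eq_zero.1 h5).resolve_left two_ne_zero
  -- conclusion
  intro x hx hxa'
  have hxt := hcomm x hxa'
  have hxa : a * (x - s x) = (x - s x) * a := hnt x hx hxt a ha
  have h1 : x - s x = 0 := by
    refine nondeg_cen G hG hnd (htG ha) (hd a ha) (G.sub_mem hx (hsG x hx)) hxa ?_
    intro y hy hya
    have hyt := hcomm y hya
    have h2 : y = s y + (y - s y) := by abel
    rw [h2, mul_add, map_add, hadd x hx hxt y hy hyt, add_zero]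
    exact tr_nil (hnt x hx hxt _ (hst y hy hyt)).symm (hs x hx).2.1
  rw [sub_eq_zero] at h1
  rw [h1]
  exact hst x hx hxt

end max

section generic

variable {C : Type} [Field C] {E : Type} [AddCommGroup E] [Module C E] [FiniteDimensional C E]

/-- the commutator with `Z` on `W` -/
noncomputable def TT (W : Submodule C (End C E)) (Z : End C E) : W →ₗ[C] End C E :=
  adE Z ∘ₗ W.subtype

theorem TT_apply (W : Submodule C (End C E)) (Z : End C E) (x : W) :
    TT W Z x = Z * (x : End C E) - (x : End C E) * Z := rfl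

theorem finrank_cen (W : Submodule C (End C E)) (Z : End C E) :
    finrank C (cen W Z) = finrank C (LinearMap.ker (TT W Z)) := by
  have h1 : cen W Z = (LinearMap.ker (TT W Z)).map W.subtype := by
    ext Y
    rw [mem_cen, Submodule.mem_map]
    constructor
    · rintro ⟨hY, h⟩
      refine ⟨⟨Y, hY⟩, ?_, rfl⟩
      rw [LinearMap.mem_ker, TT_apply, sub_eq_zero]
      exact h
    · rintro ⟨y, hy, rfl⟩
      rw [LinearMap.mem_ker, TT_apply, sub_eq_zero] at hy
      exact ⟨y.2, hy⟩
  rw [h1]
  exact (LinearEquiv.finrank_eq (Submodule.equivMapOfInjective W.subtype W.injective_subtype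
    (LinearMap.ker (TT W Z)))).symm

/-- matrices of commutators -/
noncomputable def cmat (W : Submodule C (End C E)) {m : ℕ} (A : (Fin m → C) →ₗ[C] W)
    (B : End C E →ₗ[C] (Fin m → C)) : End C E →ₗ[C] Matrix (Fin m) (Fin m) C where
  toFun Z := LinearMap.toMatrix' (B ∘ₗ TT W Z ∘ₗ A)
  map_add' Z Z' := by
    rw [← map_add]
    congr 1
    refine LinearMap.ext fun x => ?_
    rw [LinearMap.add_apply, LinearMap.comp_apply, LinearMap.comp_apply, LinearMap.comp_apply,
      LinearMap.comp_apply, LinearMap.comp_apply, LinearMap.comp_apply, ← map_add, TT_apply,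
      TT_apply, TT_apply, add_mul, mul_add]
    congr 1
    abel
  map_smul' c Z := by
    rw [RingHom.id_apply, ← map_smul]
    congr 1
    refine LinearMap.ext fun x => ?_
    rw [LinearMap.smul_apply, LinearMap.comp_apply, LinearMap.comp_apply, LinearMap.comp_apply,
      LinearMap.comp_apply, ← map_smul, TT_apply, TT_apply, smul_mul_assoc, mul_smul_comm,
      smul_sub]

theorem cmat_apply (W : Submodule C (End C E)) {m : ℕ} (A : (Fin m → C) →ₗ[C] W)
    (B : End C E →ₗ[C] (Fin m → C)) (Z : End C E) :
    cmat W A B Z = LinearMap.toMatrix' (B ∘ₗ TT W Z ∘ₗ A) := rfl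

/-- an element over the small field with a small centralizer -/
theorem exists_generic {k : Type} [Field k] [Infinite k] [Algebra k C]
    (W : Submodule C (End C E)) {N : ℕ} (X : Fin N → End C E) (c : Fin N → C) :
    ∃ x : Fin N → k, finrank C (cen W (∑ i, algebraMap k C (x i) • X i)) ≤
      finrank C (cen W (∑ i, c i • X i)) := by
  classical
  set Y : End C E := ∑ i, c i • X i with hY
  set R : Submodule C (End C E) := LinearMap.range (TT W Y) with hR
  let bR := Module.finBasis C R
  set m : ℕ := finrank C R with hm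
  have hw : ∀ i, ∃ w : W, TT W Y w = (bR i : End C E) := fun i => (bR i).2
  choose w hw using hw
  let A : (Fin m → C) →ₗ[C] W := Fintype.linearCombination C w
  have hTA : ∀ y, TT W Y (A y) = ((∑ i, y i • bR i : R) : End C E) := by
    intro y
    rw [Fintype.linearCombination_apply, map_sum, Submodule.coe_sum]
    refine Finset.sum_congr rfl fun i _ => ?_
    rw [map_smul, hw, Submodule.coe_smul]
  have hinj : Function.Injective (TT W Y ∘ₗ A) := by
    rw [injective_iff_map_eq_zero]
    intro y hy
    rw [LinearMap.comp_apply, hTA] at hy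
    have h1 : ∑ i, y i • bR i = 0 := Subtype.ext hy
    funext i
    exact Fintype.linearIndependent_iff.1 bR.linearIndependent y h1 i
  obtain ⟨B, hB⟩ := LinearMap.exists_leftInverse_of_injective _ (LinearMap.ker_eq_bot.2 hinj)
  -- the determinant as a polynomial
  let Nm : Fin N → Matrix (Fin m) (Fin m) C := fun i => cmat W A B (X i)
  let D : MvPolynomial (Fin N) C := Matrix.det
    (∑ i, (MvPolynomial.X i : MvPolynomial (Fin N) C) •
      (Nm i).map (MvPolynomial.C : C →+* MvPolynomial (Fin N) C))
  have hD : ∀ z : Fin N → C, MvPolynomial.eval z D = (cmat W A B (∑ i, z i • X i)).det := by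
    intro z
    change (MvPolynomial.eval z) (Matrix.det _) = _
    rw [RingHom.map_det]
    congr 1
    ext a b
    rw [RingHom.mapMatrix_apply, Matrix.map_apply, Matrix.sum_apply, map_sum, map_sum,
      Matrix.sum_apply]
    refine Finset.sum_congr rfl fun i _ => ?_
    rw [Matrix.smul_apply, Matrix.map_apply, smul_eq_mul, map_mul, MvPolynomial.eval_X,
      MvPolynomial.eval_C, map_smul, Matrix.smul_apply, smul_eq_mul]
  have hDY : MvPolynomial.eval c D = 1 := by
    rw [hD, cmat_apply, ← hY]
    rw [hB, LinearMap.toMatrix'_id, Matrix.det_one]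
  have hDne : D ≠ 0 := by
    intro h0
    rw [h0, map_zero] at hDY
    exact zero_ne_one hDY
  have hx : ∃ x : Fin N → k, MvPolynomial.eval (fun i => algebraMap k C (x i)) D ≠ 0 := by
    by_contra hcon
    push Not at hcon
    apply hDne
    refine MvPolynomial.funext_set (fun _ => Set.range (algebraMap k C))
      (fun _ => Set.infinite_range_of_injective (algebraMap k C).injective) fun z hz => ?_
    have hz' : ∀ i, ∃ x : k, algebraMap k C x = z i := fun i => hz i (Set.mem_univ i)
    choose x hx using hz'
    rw [map_zero, ← hcon x]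
    congr 2
    funext i
    exact (hx i).symm
  obtain ⟨x, hx⟩ := hx
  refine ⟨x, ?_⟩
  rw [finrank_cen, finrank_cen]
  set Z : End C E := ∑ i, algebraMap k C (x i) • X i with hZ
  rw [hD, ← hZ, cmat_apply] at hx
  have hinjZ : Function.Injective (TT W Z ∘ₗ A) := by
    have h1 : Function.Injective (B ∘ₗ TT W Z ∘ₗ A) := by
      rw [← LinearMap.ker_eq_bot, LinearMap.ker_eq_bot']
      intro y hy
      have h2 : (LinearMap.toMatrix' (B ∘ₗ TT W Z ∘ₗ A)).mulVec y = 0 := by
        rw [← Matrix.toLin'_apply, Matrix.toLin'_toMatrix']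
        exact hy
      by_contra hy0
      exact hx (Matrix.exists_mulVec_eq_zero_iff.1 ⟨y, hy0, h2⟩)
    intro y y' hyy
    apply h1
    rw [LinearMap.comp_apply, LinearMap.comp_apply]
    rw [LinearMap.comp_apply, LinearMap.comp_apply] at hyy
    rw [LinearMap.comp_apply, LinearMap.comp_apply, hyy]
  have h3 : m ≤ finrank C (LinearMap.range (TT W Z)) := by
    have h4 := LinearMap.finrank_le_finrank_of_injective
      (f := LinearMap.codRestrict (LinearMap.range (TT W Z)) (TT W Z ∘ₗ A) fun y =>
        ⟨A y, rfl⟩) (fun y y' hyy => hinjZ (congrArg Subtype.val hyy))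
    rwa [finrank_fin_fun] at h4
  have h5 := LinearMap.finrank_range_add_finrank_ker (TT W Z)
  have h6 := LinearMap.finrank_range_add_finrank_ker (TT W Y)
  rw [← hR] at h6
  have h7 : finrank C R + finrank C (LinearMap.ker (TT W Y)) = finrank C W := h6
  rw [← hm] at h7
  omega

end generic

end Pool.Agent.Helper44.OP1
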