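import Mathlib

/-!
# Relations between the roots and symmetric functions
-/

set_option autoImplicit false
set_option linter.unusedSectionVars false

namespace Pool.Agent.Helper44.OP1

open MvPolynomial

section roots

variable {L : Type} [Field L] [IsAlgClosed L]

/-- enumeration of the roots -/
theorem exists_roots {N : ℕ} {χ : Polynomial L} (hm : χ.Monic) (hd : χ.natDegree = N) :
    ∃ x : Fin N → L, χ = ∏ i, (Polynomial.X - Polynomial.C (x i)) := by
  have hs := IsAlgClosed.splits χ
  have hcard : χ.roots.card = N := by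
    rw [← hd]
    exact (Polynomial.splits_iff_card_roots.1 hs)
  obtain ⟨l, hl⟩ : ∃ l : List L, (l : Multiset L) = χ.roots :=
    ⟨χ.roots.toList, Multiset.coe_toList _⟩
  have hlen : l.length = N := by rw [← Multiset.coe_card, hl, hcard]
  clear hcard
  subst hlen
  refine ⟨fun i => l.get i, ?_⟩
  have h1 := hs.eq_prod_roots_of_monic hm
  rw [← hl, Multiset.map_coe, Multiset.prod_coe] at h1
  rw [h1]
  exact (Fin.prod_univ_fun_getElem l fun a => Polynomial.X - Polynomial.C a).symm

end roots

section roots'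

variable {L : Type} [Field L]

theorem mem_roots {N : ℕ} {x : Fin N → L} {z : L}
    (hz : (∏ i, (Polynomial.X - Polynomial.C (x i))).eval z = 0) : ∃ i, x i = z := by
  rw [Polynomial.eval_prod, Finset.prod_eq_zero_iff] at hz
  obtain ⟨i, -, hi⟩ := hz
  rw [Polynomial.eval_sub, Polynomial.eval_X, Polynomial.eval_C, sub_eq_zero] at hi
  exact ⟨i, hi.symm⟩

theorem root_mem {N : ℕ} (x : Fin N → L) (i : Fin N) :
    (∏ i, (Polynomial.X - Polynomial.C (x i))).eval (x i) = 0 := by
  rw [Polynomial.eval_prod, Finset.prod_eq_zero_iff]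
  refine ⟨i, Finset.mem_univ _, ?_⟩
  rw [Polynomial.eval_sub, Polynomial.eval_X, Polynomial.eval_C, sub_self]

theorem coeff_prod {N : ℕ} (x : Fin N → L) (i : Fin N) :
    (∏ i, (Polynomial.X - Polynomial.C (x i))).coeff (N - (i + 1)) =
      (-1) ^ ((i : ℕ) + 1) * (Finset.univ.val.map x).esymm (i + 1) := by
  have h1 : ∏ i, (Polynomial.X - Polynomial.C (x i)) =
      ((Finset.univ.val.map x).map fun t => Polynomial.X - Polynomial.C t).prod := by
    rw [Multiset.map_map]
    rfl
  have hc : (Finset.univ.val.map x).card = N := by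
    rw [Multiset.card_map]
    exact Fintype.card_fin N
  have h2 := Multiset.prod_X_sub_C_coeff (Finset.univ.val.map x) (k := N - (i + 1))
    (by rw [hc]; exact Nat.sub_le _ _)
  rw [hc] at h2
  have h3 : N - (N - ((i : ℕ) + 1)) = i + 1 := by
    have := i.2
    omega
  rw [h3] at h2
  rw [h1, h2]

end roots'

section sym

variable {k : Type} [Field k] {r : ℕ} (N : ℕ) (P : MvPolynomial (Fin r) k)

/-- the product over all tuples -/
noncomputable def FF (c : k) : MvPolynomial (Fin N) k :=
  ∏ κ : Fin r → Fin N, (C c - rename κ P)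

theorem FF_symm (c : k) : (FF N P c).IsSymmetric := by
  intro e
  unfold FF
  rw [map_prod]
  refine Fintype.prod_equiv ((Equiv.refl (Fin r)).arrowCongr e) _ _ fun κ => ?_
  rw [map_sub, rename_C, rename_rename]
  rfl

theorem exists_GG (c : k) : ∃ Q : MvPolynomial (Fin N) k,
    aeval (fun i : Fin N => esymm (Fin N) k (i + 1)) Q = FF N P c := by
  obtain ⟨Q, hQ⟩ := esymmAlgHom_surjective (σ := Fin N) (R := k) (n := N)
    (by rw [Fintype.card_fin]) ⟨FF N P c, FF_symm N P c⟩
  refine ⟨Q, ?_⟩
  rw [← esymmAlgHom_apply, hQ]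

/-- the product over all tuples as a polynomial in the coefficients -/
theorem exists_HH (c : k) : ∃ Q : MvPolynomial (Fin N) k,
    ∀ (L : Type) [Field L] [Algebra k L] (x : Fin N → L) (χ : Polynomial L),
      χ = ∏ i, (Polynomial.X - Polynomial.C (x i)) →
      aeval (fun i : Fin N => χ.coeff (N - (i + 1))) Q =
        ∏ κ : Fin r → Fin N, (algebraMap k L c - aeval (fun j => x (κ j)) P) := by
  obtain ⟨G, hG⟩ := exists_GG N P c
  refine ⟨aeval (fun i : Fin N => C ((-1) ^ ((i : ℕ) + 1)) * X i) G, ?_⟩
  intro L _ _ x χ hχ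
  rw [comp_aeval_apply]
  have h1 : (fun i : Fin N => aeval (fun i : Fin N => χ.coeff (N - (i + 1)))
      (C ((-1 : k) ^ ((i : ℕ) + 1)) * X i)) =
      fun i : Fin N => aeval x (esymm (Fin N) k (i + 1)) := by
    funext i
    rw [map_mul, aeval_X, aeval_C, hχ, coeff_prod, aeval_esymm_eq_multiset_esymm, map_pow,
      map_neg, map_one, ← mul_assoc, ← mul_pow, neg_one_mul, neg_neg, one_pow, one_mul]
  rw [h1, ← comp_aeval_apply, hG]
  unfold FF
  rw [map_prod]
  refine Finset.prod_congr rfl fun κ _ => ?_
  rw [map_sub, aeval_C, aeval_rename]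
  rfl

end sym

section transfer

variable {k : Type} [Field k] [Infinite k] {r N : ℕ} {P : MvPolynomial (Fin r) k}

/-- **Transfer of a relation between the roots.** -/
theorem transfer {Γ : Type} {χ : Γ → Polynomial k} (hm : ∀ γ, (χ γ).Monic)
    (hd : ∀ γ, (χ γ).natDegree = N) {L : Type} [Field L] [IsAlgClosed L] [Algebra k L]
    (hP : ∀ γ (z : Fin r → L), (∀ j, ((χ γ).map (algebraMap k L)).eval (z j) = 0) →
      aeval z P = 0)
    {K : Type} [Field K] [IsAlgClosed K] [Algebra k K] {ψ : Polynomial K} (hψ : ψ.Monic)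
    (hψd : ψ.natDegree = N)
    (hrel : ∀ Q : MvPolynomial (Fin N) k,
      (∀ γ, aeval (fun i : Fin N => (χ γ).coeff (N - (i + 1))) Q = 0) →
      aeval (fun i : Fin N => ψ.coeff (N - (i + 1))) Q = 0)
    (z : Fin r → K) (hz : ∀ j, ψ.eval (z j) = 0) : aeval z P = 0 := by
  obtain ⟨x, hx⟩ := exists_roots hψ hψd
  have h1 : ∀ c : k, ∏ κ : Fin r → Fin N, (algebraMap k K c - aeval (fun j => x (κ j)) P) =
      (algebraMap k K c) ^ Fintype.card (Fin r → Fin N) := by
    intro c
    obtain ⟨Q, hQ⟩ := exists_HH N P c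
    have h2 := hrel (Q - C (c ^ Fintype.card (Fin r → Fin N))) (fun γ => by
      obtain ⟨y, hy⟩ := exists_roots ((hm γ).map (algebraMap k L))
        (by rw [Polynomial.natDegree_map, hd γ])
      have h3 := hQ L y _ hy
      have h4 : (fun i : Fin N => ((χ γ).map (algebraMap k L)).coeff (N - (i + 1))) =
          algebraMap k L ∘ fun i : Fin N => (χ γ).coeff (N - (i + 1)) := by
        funext i
        rw [Polynomial.coeff_map]
        rfl
      rw [h4, aeval_algebraMap_apply] at h3
      apply (algebraMap k L).injective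
      rw [map_sub, map_sub, h3, aeval_C, map_zero, sub_eq_zero]
      rw [Algebra.algebraMap_self_apply, map_pow]
      rw [Finset.prod_congr rfl (g := fun _ => algebraMap k L c)]
      · rw [Finset.prod_const]
        rfl
      · intro κ _
        rw [hP γ (fun j => y (κ j)) fun j => by rw [hy]; exact root_mem y (κ j), sub_zero])
    rw [map_sub, hQ K x ψ hx, aeval_C, sub_eq_zero, map_pow] at h2
    exact h2
  have h5 : ∏ κ : Fin r → Fin N, (Polynomial.X - Polynomial.C (aeval (fun j => x (κ j)) P)) =
      (Polynomial.X : Polynomial K) ^ Fintype.card (Fin r → Fin N) := by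
    refine Polynomial.eq_of_infinite_eval_eq _ _ ?_
    refine Set.Infinite.mono (s := Set.range (algebraMap k K)) ?_
      (Set.infinite_range_of_injective (algebraMap k K).injective)
    rintro _ ⟨c, rfl⟩
    change Polynomial.eval _ _ = Polynomial.eval _ _
    rw [Polynomial.eval_prod, Polynomial.eval_pow, Polynomial.eval_X, ← h1 c]
    refine Finset.prod_congr rfl fun κ _ => ?_
    rw [Polynomial.eval_sub, Polynomial.eval_X, Polynomial.eval_C]
  have h6 : ∀ j, ∃ i, x i = z j := fun j => mem_roots (by rw [← hx]; exact hz j)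
  choose κ hκ using h6
  have h7 := congrArg (Polynomial.eval (aeval (fun j => x (κ j)) P)) h5
  rw [Polynomial.eval_prod, Polynomial.eval_pow, Polynomial.eval_X,
    Finset.prod_eq_zero (Finset.mem_univ κ) (by
      rw [Polynomial.eval_sub, Polynomial.eval_X, Polynomial.eval_C, sub_self])] at h7
  have h8 : aeval (fun j => x (κ j)) P = 0 := by
    by_contra h9
    exact pow_ne_zero _ h9 h7.symm
  rwa [funext hκ] at h8

end transfer

end Pool.Agent.Helper44.OP1
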