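import Pool.Agent.Helper44.OP1.Ring
import Pool.Agent.Helper44.OP1.Sym
import Pool.Graph.R_seed8.Y785.RM.Cartan

/-!
# The values at the torus
-/

set_option autoImplicit false
set_option linter.unusedSectionVars false

namespace Pool.Agent.Helper44.OP1

open Module TensorProduct Pool.Agent.W5h2.SL Pool.Agent.Y114.RM Pool.Agent.Y914.RM
  Pool.Agent.Helper44.T4 Pool.Agent.H204R3.SP Pool.Agent.Y785.RM

/-- a nonzero polynomial is not zero at some point with nonzero coordinates -/
theorem exists_point {k C : Type} [Field k] [Field C] [Infinite C] [Algebra k C] {r : ℕ}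
    (P : MvPolynomial (Fin r) k) (hP : P ≠ 0) :
    ∃ z : Fin r → C, (∀ j, z j ≠ 0) ∧ MvPolynomial.aeval z P ≠ 0 := by
  classical
  by_contra hcon
  have h1 : P * ∏ j, MvPolynomial.X j ≠ 0 :=
    mul_ne_zero hP (Finset.prod_ne_zero_iff.2 fun j _ => MvPolynomial.X_ne_zero j)
  apply h1
  apply MvPolynomial.map_injective (algebraMap k C) (algebraMap k C).injective
  rw [map_zero]
  refine MvPolynomial.funext fun z => ?_
  rw [MvPolynomial.eval_map, map_zero]
  change MvPolynomial.aeval z _ = 0
  rw [map_mul, map_prod]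
  by_contra h2
  rw [mul_eq_zero, not_or, Finset.prod_eq_zero_iff] at h2
  refine hcon ⟨z, fun j hj => h2.2 ⟨j, Finset.mem_univ _, ?_⟩, h2.1⟩
  rw [MvPolynomial.aeval_X, hj]

section forms

variable {C : Type} [Field C] {T : Type} [AddCommGroup T] [Module C T] [FiniteDimensional C T]
  {ι : Type} [Fintype ι] [DecidableEq ι]

/-- prescribed values of some of the coordinates -/
theorem exists_value (Ω : T →ₗ[C] (ι → C)) (hΩ : Function.Injective Ω) {r : ℕ}
    (hr : r ≤ finrank C T) (y : Fin r → C) :
    ∃ (a : T) (κ : Fin r → ι), ∀ j, Ω a (κ j) = y j := by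
  let W : ι → Dual C T := fun i => (LinearMap.proj i : (ι → C) →ₗ[C] C) ∘ₗ Ω
  have h1 : Submodule.span C (Set.range W) = ⊤ := by
    have h2 := LinearMap.dualMap_surjective_iff.2 hΩ
    rw [eq_top_iff]
    rintro f -
    obtain ⟨g, rfl⟩ := h2 f
    have h3 : g = ∑ i, g (Pi.single i 1) • (LinearMap.proj i : (ι → C) →ₗ[C] C) := by
      refine LinearMap.pi_ext' fun i => LinearMap.ext_ring ?_
      rw [LinearMap.comp_apply, LinearMap.comp_apply, LinearMap.sum_apply,
        Finset.sum_eq_single i]
      · rw [LinearMap.smul_apply, LinearMap.proj_apply]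
        change g (Pi.single i 1) = g (Pi.single i 1) • (Pi.single i (1 : C) : ι → C) i
        rw [Pi.single_eq_same, smul_eq_mul, mul_one]
      · intro j _ hj
        rw [LinearMap.smul_apply, LinearMap.proj_apply]
        change _ • (Pi.single i (1 : C) : ι → C) j = 0
        rw [Pi.single_eq_of_ne hj, smul_zero]
      · intro h; exact absurd (Finset.mem_univ i) h
    rw [h3, map_sum]
    refine Submodule.sum_mem _ fun i _ => ?_
    rw [map_smul]
    exact Submodule.smul_mem _ _ (Submodule.subset_span ⟨i, rfl⟩)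
  obtain ⟨f, hf1, -, hf3⟩ := Submodule.exists_fun_fin_finrank_span_eq C (Set.range W)
  have hd : r ≤ finrank C (Submodule.span C (Set.range W)) := by
    rw [h1, finrank_top, Subspace.dual_finrank_eq]
    exact hr
  choose κ hκ using hf1
  let f' : Fin r → Dual C T := fun j => f (Fin.castLE hd j)
  have hf' : LinearIndependent C f' := hf3.comp _ (Fin.castLE_injective hd)
  let Θ : T →ₗ[C] (Fin r → C) := LinearMap.pi f'
  have hsurj : Function.Surjective Θ := by
    rw [← LinearMap.dualMap_injective_iff, injective_iff_map_eq_zero]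
    intro g hg
    have h4 : ∑ j, g (Pi.single j 1) • f' j = 0 := by
      refine LinearMap.ext fun a => ?_
      have h5 := LinearMap.congr_fun hg a
      rw [LinearMap.dualMap_apply, LinearMap.zero_apply] at h5
      rw [LinearMap.zero_apply, ← h5, LinearMap.sum_apply]
      have h6 : Θ a = ∑ j, f' j a • (Pi.single j (1 : C) : Fin r → C) := by
        funext i
        rw [Finset.sum_apply, Finset.sum_eq_single i]
        · rw [Pi.smul_apply, Pi.single_eq_same, smul_eq_mul, mul_one]
          rfl
        · intro j _ hj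
          rw [Pi.smul_apply, Pi.single_eq_of_ne hj.symm, smul_zero]
        · intro h; exact absurd (Finset.mem_univ i) h
      rw [h6, map_sum]
      refine Finset.sum_congr rfl fun j _ => ?_
      rw [map_smul, LinearMap.smul_apply, smul_eq_mul, smul_eq_mul, mul_comm]
    have h7 := Fintype.linearIndependent_iff.1 hf' _ h4
    refine LinearMap.pi_ext' fun i => LinearMap.ext_ring ?_
    exact h7 i
  obtain ⟨a, ha⟩ := hsurj y
  refine ⟨a, fun j => κ (Fin.castLE hd j), fun j => ?_⟩
  have h8 : Ω a (κ (Fin.castLE hd j)) = W (κ (Fin.castLE hd j)) a := rfl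
  rw [h8, hκ, ← ha]
  rfl

end forms

section main

variable {p : ℕ} [Fact p.Prime] {V : Type} [AddCommGroup V] [Module ℚ_[p] V]
  [FiniteDimensional ℚ_[p] V] {Γ : Type} [Group Γ] [TopologicalSpace Γ]
  [IsTopologicalGroup Γ] [CompactSpace Γ]

/-- **The roots of the characteristic polynomials satisfy no relation.** -/
theorem generic_roots {σ : Representation ℚ_[p] Γ V} (hc : Cts (p := p) fun γ => σ γ)
    (hs : Semi fun γ => σ γ) {G : Submodule ℚ_[p] (End ℚ_[p] V)} (hG : ∀ X ∈ G, KillsTate σ X)
    [Algebra ℚ_[p] ℂ] {t : Submodule ℂ (End ℂ (ℂ ⊗[ℚ_[p]] V))} (htG : t ≤ bcS ℂ G)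
    (hd : ∀ a ∈ t, Dg a) (hcomm : ∀ a ∈ t, ∀ b ∈ t, a * b = b * a) {r : ℕ}
    (hr : r ≤ finrank ℂ t) (P : MvPolynomial (Fin r) ℚ_[p]) (hP : P ≠ 0) :
    ∃ (γ : Γ) (z : Fin r → AlgebraicClosure ℚ_[p]),
      (∀ j, ((σ γ).charpoly.map (algebraMap ℚ_[p] (AlgebraicClosure ℚ_[p]))).eval (z j) = 0) ∧
      MvPolynomial.aeval z P ≠ 0 := by
  classical
  rcases subsingleton_or_nontrivial V with hV | hV
  · -- `r = 0`
    have h1 : finrank ℂ t = 0 := by
      have h0 : finrank ℂ (ℂ ⊗[ℚ_[p]] V) = 0 := by
        rw [finrank_baseChange]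
        exact finrank_zero_of_subsingleton
      have : Subsingleton (ℂ ⊗[ℚ_[p]] V) := finrank_zero_iff.1 h0
      have : Subsingleton (End ℂ (ℂ ⊗[ℚ_[p]] V)) :=
        ⟨fun f g => LinearMap.ext fun x => Subsingleton.elim _ _⟩
      exact finrank_zero_of_subsingleton
    obtain rfl : r = 0 := by omega
    refine ⟨1, Fin.elim0, fun j => j.elim0, fun h2 => hP ?_⟩
    obtain ⟨c, rfl⟩ := MvPolynomial.C_surjective (Fin 0) P
    rw [MvPolynomial.aeval_C] at h2
    rw [(map_eq_zero _).1 h2, map_zero]
  · obtain ⟨x, hx0, hx⟩ := exists_point (C := ℂ) P hP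
    obtain ⟨μ, _, e, w, hw⟩ := joint (fun j : t => (j : End ℂ (ℂ ⊗[ℚ_[p]] V)))
      (fun j => hd j j.2) (fun i j => hcomm i i.2 j j.2)
    let Ω : t →ₗ[ℂ] (μ → ℂ) :=
      { toFun := fun a i => w a i
        map_add' := fun a b => by
          funext i
          have h1 := hw (a + b) i
          rw [Submodule.coe_add, LinearMap.add_apply, hw a i, hw b i, ← add_smul] at h1
          exact ((smul_left_injective ℂ (e.ne_zero i)) h1).symm
        map_smul' := fun c a => by
          funext i
          have h1 := hw (c • a) i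
          rw [Submodule.coe_smul, LinearMap.smul_apply, hw a i, smul_smul] at h1
          exact ((smul_left_injective ℂ (e.ne_zero i)) h1).symm }
    have hΩ : Function.Injective Ω := by
      rw [injective_iff_map_eq_zero]
      intro a ha
      refine Subtype.ext (e.ext fun i => ?_)
      rw [hw a i]
      have h1 : w a i = 0 := congrFun ha i
      rw [h1, zero_smul]
      rfl
    obtain ⟨a, κ, ha⟩ := exists_value (C := ℂ) (T := t) (ι := μ) Ω hΩ (r := r) (by exact hr)
      fun j => Complex.log (x j)
    let s : End ℂ (ℂ ⊗[ℚ_[p]] V) := e.constr ℂ fun i => Complex.exp (w a i) • e i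
    have hse : ∀ i, s (e i) = Complex.exp (w a i) • e i := fun i => e.constr_basis ℂ _ i
    by_contra hcon
    push Not at hcon
    have hroot : ∀ j, s.charpoly.eval (x j) = 0 := by
      intro j
      have h1 : s.HasEigenvalue (x j) := by
        refine End.hasEigenvalue_of_hasEigenvector (x := e (κ j)) ⟨?_, e.ne_zero _⟩
        rw [End.mem_eigenspace_iff, hse]
        congr 1
        have h2 : w a (κ j) = Complex.log (x j) := ha j
        rw [h2, Complex.exp_log (hx0 j)]
      exact (End.hasEigenvalue_iff_isRoot_charpoly s (x j)).1 h1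
    refine hx (transfer (N := finrank ℚ_[p] V) (χ := fun γ => (σ γ).charpoly)
      (fun γ => LinearMap.charpoly_monic _) (fun γ => LinearMap.charpoly_natDegree _)
      (L := AlgebraicClosure ℚ_[p]) hcon (LinearMap.charpoly_monic s) ?_ ?_ x hroot)
    · rw [LinearMap.charpoly_natDegree, finrank_baseChange]
    · intro Q hQ
      exact charpoly_rel hc hs hG (htG a.2) e (hw a) Complex.exp_zero Complex.exp_add hse Q _ hQ

end main

end Pool.Agent.Helper44.OP1
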