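import Pool.Agent.Helper44.OP1.Bnd

/-!
# From one prime to all primes
-/

set_option autoImplicit false
set_option linter.unusedSectionVars false

namespace Pool.Agent.Helper44.OP1

open NumberField IsDedekindDomain Module Polynomial TensorProduct Pool.Agent.TH118.SG
  Pool.Agent.Y114.MU Pool.Agent.Y114.TF Pool.Agent.Y114.GF Pool.Agent.H204R3.GP Pool.Agent.Y114.RM
  Pool.Agent.W569.FM Pool.Agent.Y114.OP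

section place

variable {Γ : Type} [Group Γ] [TopologicalSpace Γ] [IsTopologicalGroup Γ]
  {ι : Type} [Fintype ι] {n : ι → ℕ} {ℓ : ℕ} [Fact ℓ.Prime]

theorem place (ρ : Reps Γ n ℓ) (hρ : Conts ρ) (w : ι → ℤ) (c r : ℕ) (A : Set Γ)
    (hb : ∀ B M : ℕ, 0 < M → ∃ γ ∈ A, BoundedAt ρ r B M γ) :
    ∃ O : Set Γ, IsOpen O ∧ (O ∩ A).Nonempty ∧ ∀ s : GF ℚ →* Γ, Continuous s → (∃ g, s g ∈ O) →
      ∀ S : Set (HeightOneSpectrum (𝓞 ℚ)), S.Finite →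
      ∀ P : HeightOneSpectrum (𝓞 ℚ) → ι → ℚ[X],
      (∀ v ∉ S, ¬ Above v ℓ → FrobFor (restrictTo ρ s) v (P v)) →
      (∀ v ∉ S, WeilFor w c v (P v)) → ∀ T : Set (HeightOneSpectrum (𝓞 ℚ)), T.Finite →
      ∃ v, v ∉ T ∧ v ∉ S ∧ ¬ Above v ℓ ∧ IndependentRoots r (P v) := by
  classical
  obtain ⟨B, M, hM, hB⟩ := Pool.Agent.Y678.OP.t_REL ι n w c r
  obtain ⟨γ₀, hγ₀, z, hz, hind⟩ := hb B M hM
  choose k hk using hz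
  obtain ⟨O, hO, hO1, hO2⟩ := Pool.Agent.Y25.OP.root ℓ ι n Γ ρ hρ B M r k γ₀ hM
  refine ⟨O, hO, ⟨γ₀, hO1, hγ₀⟩, fun s hs hsO S hS P hP hW T hT => ?_⟩
  obtain ⟨g₀, hg₀⟩ := hsO
  obtain ⟨v, hvT, σ, ⟨Q, hQ, hQv, hσ⟩, hσO⟩ := Pool.Agent.Y405.ZO.t ℚ
    (s ⁻¹' O) (hO.preimage hs) ⟨g₀, hg₀⟩
    (T ∪ S ∪ {v | Above v ℓ}) ((hT.union hS).union (finite_above ℓ Fact.out))
  have hv1 : v ∉ T := fun h => hvT (Or.inl (Or.inl h))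
  have hv2 : v ∉ S := fun h => hvT (Or.inl (Or.inr h))
  have hv3 : ¬ Above v ℓ := fun h => hvT (Or.inr h)
  have hch : ∀ i, (ρ i (s σ⁻¹)).charpoly = (P v i).map (algebraMap ℚ ℚ_[ℓ]) := fun i =>
    hP v hv2 hv3 i Q ⟨hQ.isPrime, hQv⟩ σ hσ
  have hne : ∀ i, P v i ≠ 0 := by
    intro i h0
    have h1 := (LinearMap.charpoly_monic (ρ i (s σ⁻¹))).ne_zero
    rw [hch i, h0, Polynomial.map_zero] at h1
    exact h1 rfl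
  have hdeg : ∀ i, (P v i).natDegree ≤ n i := by
    intro i
    have h1 := LinearMap.charpoly_natDegree (ρ i (s σ⁻¹))
    rw [hch i, natDegree_map, finrank_fin_fun] at h1
    exact h1.le
  obtain ⟨z', hz', hz''⟩ := (hO2 (s σ⁻¹) hσO).1 z hk
  obtain ⟨J, -⟩ := exists_J ℓ
  have hroot : ∀ j, aeval (J (z' j)) (P v (k j)) = 0 := by
    intro j
    have h1 := hz' j
    rw [hch, aeval_map_iff] at h1
    rw [aeval_J, h1, map_zero]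
  obtain ⟨p, hp, hvp⟩ := exists_above v
  have hWp : ∀ i, ∀ a ∈ (P v i).aroots ℂ, ‖a‖ ^ 2 = (p : ℝ) ^ w i ∧
      IsIntegral ℤ ((p : ℂ) ^ c * a) := by
    intro i a ha
    have h1 := hW v hv2 i a ha
    rwa [q_eq hp hvp] at h1
  refine ⟨v, hv1, hv2, hv3, ⟨fun j => J (z' j), fun j => ⟨k j, hroot j⟩, fun e he => ?_⟩⟩
  by_contra hne0
  obtain ⟨e', he', hbd, hpow⟩ := (hB p hp (P v) (fun i => ⟨hne i, hdeg i⟩) hWp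
    (fun j => J (z' j)) (fun j => ⟨k j, (mem_aroots).2 ⟨hne _, hroot j⟩⟩)).1 ⟨e, hne0, he⟩
  refine hz'' e' hbd (hind e' he' hbd) ?_
  apply J.injective
  rw [map_pow, map_prod, map_one, ← hpow]
  congr 1
  refine Finset.prod_congr rfl fun j _ => ?_
  rw [map_zpow₀]

end place

section main

variable {Γ : Type} [Group Γ] {ι : Type} [Fintype ι] [DecidableEq ι] {n : ι → ℕ}
  [TopologicalSpace Γ] [IsTopologicalGroup Γ] [CompactSpace Γ]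

/-- **From one prime to all primes.** -/
theorem one_prime
    (ρ : ∀ (ℓ : ℕ) [Fact ℓ.Prime], Reps Γ n ℓ) (hρ : ∀ (ℓ : ℕ) [Fact ℓ.Prime], Conts (ρ ℓ))
    (w : ι → ℤ) (𝔤 : ∀ (ℓ : ℕ) [Fact ℓ.Prime], EndSpace n ℓ)
    (h𝔤 : ∀ (ℓ : ℕ) [Fact ℓ.Prime], Motivic (ρ ℓ) (𝔤 ℓ)) (r : ℕ)
    (hrank : ∀ (ℓ : ℕ) [Fact ℓ.Prime], RankLE (𝔤 ℓ) r) (c : ℕ) (ℓ₀ : ℕ) [Fact ℓ₀.Prime]
    (A : Set Γ) (hb : ∀ B M : ℕ, 0 < M → ∃ γ ∈ A, BoundedAt (ρ ℓ₀) r B M γ) :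
    ∃ O : Set Γ, IsOpen O ∧ (O ∩ A).Nonempty ∧ ∀ s : Gal(AlgebraicClosure ℚ/ℚ) →* Γ,
      GoodPoint ρ w c s → (∃ g, s g ∈ O) → ∀ (ℓ : ℕ) [Fact ℓ.Prime],
        TateUpToEnd (ρ ℓ) (𝔤 ℓ) r ∧ TateUpToEnd (restrictTo (ρ ℓ) s) (𝔤 ℓ) r := by
  obtain ⟨O, hO, hO1, hO2⟩ := place (ρ ℓ₀) (hρ ℓ₀) w c r A hb
  refine ⟨O, hO, hO1, fun s hs hsO ℓ _ => ?_⟩
  obtain ⟨hs, S, P, hS, hP, hc⟩ := hs
  have hℓp : ℓ.Prime := Fact.out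
  obtain ⟨v₀, hv1, hv2, -, hind⟩ := hO2 s hs hsO S hS P
    (fun v hv hvℓ i Q hQ g hg => ((hP v hv ℓ₀ hvℓ i).2 Q hQ g).2 hg) (fun v hv i a ha => by
      obtain ⟨p, hp, hvp⟩ := exists_above v
      obtain ⟨ℓ', hℓ', hne⟩ : ∃ ℓ : ℕ, ℓ.Prime ∧ p ≠ ℓ := by
        obtain ⟨ℓ, h1, h2⟩ := Nat.exists_infinite_primes (p + 1)
        exact ⟨ℓ, h2, by omega⟩
      have : Fact ℓ'.Prime := ⟨hℓ'⟩
      exact ⟨(hP v hv ℓ' (not_above hp hℓ' hne hvp) i).1 a ha, hc v hv i a ha⟩)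
    {v | Above v ℓ} (finite_above ℓ hℓp)
  refine ⟨tateUpToEnd_of Pool.Agent.Y655.OP.lat s hs (hρ ℓ) (h𝔤 ℓ) (hrank ℓ) hS P
    (fun v hv hvℓ i => hP v hv ℓ hvℓ i) hv2 hv1 hind, ?_⟩
  exact tateUpToEnd_of Pool.Agent.Y655.OP.lat (MonoidHom.id (GF ℚ)) continuous_id
    (ρ := restrictTo (ρ ℓ) s) (fun i => (hρ ℓ i).comp hs) (motivic_comp s (h𝔤 ℓ)) (hrank ℓ) hS P
    (fun v hv hvℓ i => hP v hv ℓ hvℓ i) hv2 hv1 hind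

end main

end Pool.Agent.Helper44.OP1
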